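import Pool.Agent.Lib.MP_3bb35d_al.UE.Defs

/-!
# Words, the law, the random walk, convolution (definitions)
-/

set_option autoImplicit false

namespace Pool.Agent.Lib.MP_3bb35d_al.UE

variable {G G' : Type*} [Group G] [Group G']

/-- The four letters `u, u⁻¹, v, v⁻¹`. -/
def lt (u v : G) : Fin 4 → G := ![u, u⁻¹, v, v⁻¹]

/-- The product of `n` letters. -/
def wd (u v : G) {n : ℕ} (A : Fin n → Fin 4) : G := (List.ofFn fun i => lt u v (A i)).prod

/-- The commutator. -/
def cm (a b : G) : G := a * b * a⁻¹ * b⁻¹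

/-- The law `[[a^240, b^240], [c^240, d^240]]`: it holds in every proper subgroup of `SL₂(p)`. -/
def law (a b c d : G) : G := cm (cm (a ^ 240) (b ^ 240)) (cm (c ^ 240) (d ^ 240))

/-- Quadruples of words of length `n`. -/
abbrev Om (n : ℕ) : Type := Fin 4 → (Fin n → Fin 4)

/-- The law evaluated at a quadruple of words of length `n` in `u, v`. -/
def lw (u v : G) {n : ℕ} (ω : Om n) : G :=
  law (wd u v (ω 0)) (wd u v (ω 1)) (wd u v (ω 2)) (wd u v (ω 3))

theorem map_cm (φ : G →* G') (a b : G) : φ (cm a b) = cm (φ a) (φ b) := by simp [cm]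

theorem map_lt (φ : G →* G') (u v : G) (i : Fin 4) : φ (lt u v i) = lt (φ u) (φ v) i := by
  fin_cases i <;> simp [lt]

theorem map_wd (φ : G →* G') (u v : G) {n : ℕ} (A : Fin n → Fin 4) :
    φ (wd u v A) = wd (φ u) (φ v) A := by
  rw [wd, wd, map_list_prod, List.map_ofFn]
  congr 1
  exact congrArg List.ofFn (funext fun i => map_lt φ u v (A i))

theorem map_law (φ : G →* G') (a b c d : G) :
    φ (law a b c d) = law (φ a) (φ b) (φ c) (φ d) := by
  simp only [law, map_cm, map_pow]

theorem map_lw (φ : G →* G') (u v : G) {n : ℕ} (ω : Om n) : φ (lw u v ω) = lw (φ u) (φ v) ω := by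
  simp only [lw, map_law, map_wd]

end Pool.Agent.Lib.MP_3bb35d_al.UE
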