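import Pool.Agent.Lib.MP_3bb35d_al.UE.Gr

/-!
# Product theorem for `SL₂(p)`, part 0: definitions
-/

set_option autoImplicit false

open scoped Pointwise
open Finset

namespace Pool.Agent.Lib.MP_3bb35d_al.UE

/-- The algebraic closure of `F_p`. -/
abbrev Kb (p : ℕ) [Fact p.Prime] : Type := AlgebraicClosure (ZMod p)

/-- Symmetric generating sets of `SL₂(p)` with small tripling. -/
structure Apx (p : ℕ) [Fact p.Prime] (A : Finset (SL2 p)) (K : ℝ) : Prop where
  one : (1 : SL2 p) ∈ A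
  inv : A⁻¹ = A
  gen : Subgroup.closure (A : Set (SL2 p)) = ⊤
  K2 : 2 ≤ K
  trip : (#(A ^ 3) : ℝ) ≤ K * #A

variable {p : ℕ} [Fact p.Prime]

theorem Apx.mono {A : Finset (SL2 p)} {K : ℝ} (h : Apx p A K) {m n : ℕ} (hmn : m ≤ n) :
    A ^ m ⊆ A ^ n := Finset.pow_subset_pow_right h.one hmn

theorem Apx.pow {A : Finset (SL2 p)} {K : ℝ} (h : Apx p A K) {m : ℕ} (hm : 1 ≤ m) :
    (#(A ^ m) : ℝ) ≤ K ^ m * #A := by
  have hK1 : (1 : ℝ) ≤ K := by linarith [h.K2]
  rcases Nat.lt_or_ge m 3 with h3 | h3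
  · have h1 : (#(A ^ m) : ℝ) ≤ #(A ^ 3) := by
      exact_mod_cast card_le_card (h.mono h3.le)
    refine (h1.trans h.trip).trans ?_
    have h2 : K ≤ K ^ m := by simpa using pow_le_pow_right₀ hK1 hm
    exact mul_le_mul_of_nonneg_right h2 (Nat.cast_nonneg _)
  · refine (small_pow_of_small_tripling h3 h.trip h.inv).trans ?_
    exact mul_le_mul_of_nonneg_right (pow_le_pow_right₀ hK1 (Nat.sub_le _ _)) (Nat.cast_nonneg _)

/-- The matrix of `g` in the basis given by the columns of `P`. -/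
noncomputable def ent (P : GL (Fin 2) (Kb p)) (g : SL2 p) : Matrix (Fin 2) (Fin 2) (Kb p) :=
  ((P⁻¹ : GL (Fin 2) (Kb p)) : Matrix (Fin 2) (Fin 2) (Kb p)) *
    (g : Matrix (Fin 2) (Fin 2) (ZMod p)).map (algebraMap (ZMod p) (Kb p)) *
    (P : Matrix (Fin 2) (Fin 2) (Kb p))

/-- The torus (diagonal matrices in the basis `P`). -/
def tor (P : GL (Fin 2) (Kb p)) : Set (SL2 p) := {g | ent P g 0 1 = 0 ∧ ent P g 1 0 = 0}

/-- The stabiliser of the line of `v`. -/
def bor (v : Fin 2 → ZMod p) : Set (SL2 p) :=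
  {g | ∃ c : ZMod p, (g : Matrix (Fin 2) (Fin 2) (ZMod p)).mulVec v = c • v}

/-- The elements with `g v = v` or `g v = - v`. -/
def unip (v : Fin 2 → ZMod p) : Set (SL2 p) :=
  {g | (g : Matrix (Fin 2) (Fin 2) (ZMod p)).mulVec v = v ∨
    (g : Matrix (Fin 2) (Fin 2) (ZMod p)).mulVec v = -v}

/-- The trace. -/
def tr {R : Type*} [CommRing R] (g : Matrix.SpecialLinearGroup (Fin 2) R) : R := g 0 0 + g 1 1

/-- The elements of trace `τ`. -/
def trs (τ : ZMod p) : Set (SL2 p) := {g | tr g = τ}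

/-- The number of elements of `A ^ m` in the set `S`. -/
noncomputable def cin (A : Finset (SL2 p)) (m : ℕ) (S : Set (SL2 p)) : ℕ :=
  ((↑(A ^ m) : Set (SL2 p)) ∩ S).ncard

/-- The translate of the basis `P` by `g`; `tor (gP g P) = g (tor P) g⁻¹`. -/
noncomputable def gP (g : SL2 p) (P : GL (Fin 2) (Kb p)) : GL (Fin 2) (Kb p) :=
  (Matrix.SpecialLinearGroup.toGL (Matrix.SpecialLinearGroup.map (algebraMap (ZMod p) (Kb p)) g)) * P

/-- The torus of `P` is involved: `A ^ 2` contains a noncentral element of it. -/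
def Inv (A : Finset (SL2 p)) (P : GL (Fin 2) (Kb p)) : Prop :=
  ∃ t ∈ A ^ 2, t ∈ tor P ∧ t ≠ 1 ∧ t ≠ -1

/-- PROOF: `Matrix.map_mul`, `P * P⁻¹ = 1`. -/
theorem ent_mul (P : GL (Fin 2) (Kb p)) (g h : SL2 p) : ent P (g * h) = ent P g * ent P h := by
  have h1 : (P : Matrix (Fin 2) (Fin 2) (Kb p)) * ((P⁻¹ : GL (Fin 2) (Kb p)) :
      Matrix (Fin 2) (Fin 2) (Kb p)) = 1 := by
    rw [← Units.val_mul, mul_inv_cancel, Units.val_one]
  unfold ent
  rw [Matrix.SpecialLinearGroup.coe_mul, Matrix.map_mul]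
  calc _ = ((P⁻¹ : GL (Fin 2) (Kb p)) : Matrix (Fin 2) (Fin 2) (Kb p)) *
        (g : Matrix (Fin 2) (Fin 2) (ZMod p)).map (algebraMap (ZMod p) (Kb p)) * 1 *
        ((h : Matrix (Fin 2) (Fin 2) (ZMod p)).map (algebraMap (ZMod p) (Kb p)) *
        (P : Matrix (Fin 2) (Fin 2) (Kb p))) := by
        simp only [Matrix.mul_assoc, Matrix.mul_one]
    _ = _ := by
        rw [← h1]
        simp only [Matrix.mul_assoc]

theorem ent_one (P : GL (Fin 2) (Kb p)) : ent P (1 : SL2 p) = 1 := by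
  unfold ent
  rw [Matrix.SpecialLinearGroup.coe_one, Matrix.map_one _ (map_zero _) (map_one _), Matrix.mul_one,
    ← Units.val_mul, inv_mul_cancel, Units.val_one]

/-- PROOF: multiplicativity of the determinant. -/
theorem det_ent (P : GL (Fin 2) (Kb p)) (g : SL2 p) :
    ent P g 0 0 * ent P g 1 1 - ent P g 0 1 * ent P g 1 0 = 1 := by
  rw [← Matrix.det_fin_two]
  have h1 : (P : Matrix (Fin 2) (Fin 2) (Kb p)) * ((P⁻¹ : GL (Fin 2) (Kb p)) :
      Matrix (Fin 2) (Fin 2) (Kb p)) = 1 := by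
    rw [← Units.val_mul, mul_inv_cancel, Units.val_one]
  have h2 := congrArg Matrix.det h1
  rw [Matrix.det_mul, Matrix.det_one] at h2
  have h3 : ((g : Matrix (Fin 2) (Fin 2) (ZMod p)).map (algebraMap (ZMod p) (Kb p))).det = 1 := by
    have h4 := RingHom.map_det (algebraMap (ZMod p) (Kb p)) (g : Matrix (Fin 2) (Fin 2) (ZMod p))
    rw [g.det_coe, map_one] at h4
    exact h4.symm
  unfold ent
  rw [Matrix.det_mul, Matrix.det_mul, h3, mul_one, mul_comm, h2]

/-- PROOF: invariance of the trace. -/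
theorem tr_ent (P : GL (Fin 2) (Kb p)) (g : SL2 p) :
    ent P g 0 0 + ent P g 1 1 = algebraMap (ZMod p) (Kb p) (tr g) := by
  have h1 : (P : Matrix (Fin 2) (Fin 2) (Kb p)) * ((P⁻¹ : GL (Fin 2) (Kb p)) :
      Matrix (Fin 2) (Fin 2) (Kb p)) = 1 := by
    rw [← Units.val_mul, mul_inv_cancel, Units.val_one]
  rw [← Matrix.trace_fin_two]
  unfold ent
  rw [Matrix.mul_assoc, Matrix.trace_mul_comm, Matrix.mul_assoc, h1, Matrix.mul_one,
    Matrix.trace_fin_two]
  unfold tr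
  rw [map_add]
  rfl

theorem ent_inj (P : GL (Fin 2) (Kb p)) {g h : SL2 p} (e : ent P g = ent P h) : g = h := by
  have h1 : (P : Matrix (Fin 2) (Fin 2) (Kb p)) * ((P⁻¹ : GL (Fin 2) (Kb p)) :
      Matrix (Fin 2) (Fin 2) (Kb p)) = 1 := by
    rw [← Units.val_mul, mul_inv_cancel, Units.val_one]
  have key : ∀ k : SL2 p, (P : Matrix (Fin 2) (Fin 2) (Kb p)) * ent P k *
      ((P⁻¹ : GL (Fin 2) (Kb p)) : Matrix (Fin 2) (Fin 2) (Kb p)) =
      (k : Matrix (Fin 2) (Fin 2) (ZMod p)).map (algebraMap (ZMod p) (Kb p)) := by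
    intro k
    unfold ent
    calc _ = ((P : Matrix (Fin 2) (Fin 2) (Kb p)) * ((P⁻¹ : GL (Fin 2) (Kb p)) :
          Matrix (Fin 2) (Fin 2) (Kb p))) *
          (k : Matrix (Fin 2) (Fin 2) (ZMod p)).map (algebraMap (ZMod p) (Kb p)) *
          ((P : Matrix (Fin 2) (Fin 2) (Kb p)) * ((P⁻¹ : GL (Fin 2) (Kb p)) :
          Matrix (Fin 2) (Fin 2) (Kb p))) := by
          simp only [Matrix.mul_assoc]
      _ = _ := by rw [h1, Matrix.one_mul, Matrix.mul_one]
  have h2 := key g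
  rw [e, key h] at h2
  apply Subtype.ext
  exact (Matrix.map_injective (algebraMap (ZMod p) (Kb p)).injective h2).symm

/-- The inverse: `ent P g⁻¹ = !![d, -b; -c, a]`. -/
theorem ent_inv (P : GL (Fin 2) (Kb p)) (g : SL2 p) :
    ent P g⁻¹ = !![ent P g 1 1, - ent P g 0 1; - ent P g 1 0, ent P g 0 0] := by
  have h1 : ent P g⁻¹ * ent P g = 1 := by rw [← ent_mul, inv_mul_cancel, ent_one]
  have h2 : ent P g * !![ent P g 1 1, - ent P g 0 1; - ent P g 1 0, ent P g 0 0] = 1 := by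
    have h3 := det_ent P g
    ext i j
    fin_cases i <;> fin_cases j
    · simp [Matrix.mul_apply, Fin.sum_univ_two]
      linear_combination h3
    · simp [Matrix.mul_apply, Fin.sum_univ_two]
      ring
    · simp [Matrix.mul_apply, Fin.sum_univ_two]
      ring
    · simp [Matrix.mul_apply, Fin.sum_univ_two]
      linear_combination h3
  calc ent P g⁻¹ = ent P g⁻¹ * (ent P g *
        !![ent P g 1 1, - ent P g 0 1; - ent P g 1 0, ent P g 0 0]) := by
        rw [h2, Matrix.mul_one]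
    _ = _ := by rw [← Matrix.mul_assoc, h1, Matrix.one_mul]

theorem ent_neg (P : GL (Fin 2) (Kb p)) (g : SL2 p) : ent P (-g) = - ent P g := by
  unfold ent
  have h : ((-g : SL2 p) : Matrix (Fin 2) (Fin 2) (ZMod p)).map (algebraMap (ZMod p) (Kb p)) =
      -((g : Matrix (Fin 2) (Fin 2) (ZMod p)).map (algebraMap (ZMod p) (Kb p))) := by
    ext i j
    simp
  rw [h, Matrix.mul_neg, Matrix.neg_mul]

theorem ent_gP (P : GL (Fin 2) (Kb p)) (g h : SL2 p) : ent (gP g P) h = ent P (g⁻¹ * h * g) := by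
  have h1 : ((Matrix.SpecialLinearGroup.toGL (Matrix.SpecialLinearGroup.map
      (algebraMap (ZMod p) (Kb p)) g) : GL (Fin 2) (Kb p)) : Matrix (Fin 2) (Fin 2) (Kb p)) =
      (g : Matrix (Fin 2) (Fin 2) (ZMod p)).map (algebraMap (ZMod p) (Kb p)) := rfl
  have h2 : (((Matrix.SpecialLinearGroup.toGL (Matrix.SpecialLinearGroup.map
      (algebraMap (ZMod p) (Kb p)) g))⁻¹ : GL (Fin 2) (Kb p)) : Matrix (Fin 2) (Fin 2) (Kb p)) =
      ((g⁻¹ : SL2 p) : Matrix (Fin 2) (Fin 2) (ZMod p)).map (algebraMap (ZMod p) (Kb p)) := by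
    rw [← map_inv, ← map_inv]
    rfl
  unfold ent gP
  rw [mul_inv_rev, Units.val_mul, Units.val_mul, h1, h2, Matrix.SpecialLinearGroup.coe_mul,
    Matrix.SpecialLinearGroup.coe_mul, Matrix.map_mul, Matrix.map_mul]
  simp only [Matrix.mul_assoc]

theorem mem_tor_gP (P : GL (Fin 2) (Kb p)) (g h : SL2 p) :
    h ∈ tor (gP g P) ↔ g⁻¹ * h * g ∈ tor P := by
  unfold tor
  simp only [Set.mem_setOf_eq, ent_gP]

theorem gP_mul (P : GL (Fin 2) (Kb p)) (g h : SL2 p) : gP (g * h) P = gP g (gP h P) := by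
  unfold gP
  rw [map_mul, map_mul, mul_assoc]

/-- `tor P` is closed under products and inverses, and its elements commute. -/
theorem tor_mul (P : GL (Fin 2) (Kb p)) {g h : SL2 p} (hg : g ∈ tor P) (hh : h ∈ tor P) :
    g * h ∈ tor P := by
  obtain ⟨hg1, hg2⟩ := hg
  obtain ⟨hh1, hh2⟩ := hh
  constructor
  · rw [ent_mul, Matrix.mul_apply, Fin.sum_univ_two, hg1, hh1]
    ring
  · rw [ent_mul, Matrix.mul_apply, Fin.sum_univ_two, hg2, hh2]
    ring

theorem tor_inv (P : GL (Fin 2) (Kb p)) {g : SL2 p} (hg : g ∈ tor P) : g⁻¹ ∈ tor P := by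
  obtain ⟨hg1, hg2⟩ := hg
  constructor
  · rw [ent_inv]
    simp [hg1]
  · rw [ent_inv]
    simp [hg2]

/-- An element of the torus is determined by its first entry. PROOF: the second diagonal entry is the inverse
(`det_ent`), `ent_inj`. -/
theorem tor_ext (P : GL (Fin 2) (Kb p)) {g h : SL2 p} (hg : g ∈ tor P) (hh : h ∈ tor P)
    (e : ent P g 0 0 = ent P h 0 0) : g = h := by
  obtain ⟨hg1, hg2⟩ := hg
  obtain ⟨hh1, hh2⟩ := hh
  have d1 := det_ent P g
  have d2 := det_ent P h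
  rw [hg1, zero_mul, sub_zero] at d1
  rw [hh1, zero_mul, sub_zero] at d2
  have h0 : ent P g 0 0 ≠ 0 := by
    intro h0
    rw [h0, zero_mul] at d1
    exact zero_ne_one d1
  have h3 : ent P g 1 1 = ent P h 1 1 := by
    rw [← e] at d2
    exact mul_left_cancel₀ h0 (d1.trans d2.symm)
  apply ent_inj P
  ext i j
  fin_cases i <;> fin_cases j
  · exact e
  · exact hg1.trans hh1.symm
  · exact hg2.trans hh2.symm
  · exact h3

end Pool.Agent.Lib.MP_3bb35d_al.UE
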