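import Pool.Agent.Lib.MP_3bb35d_al.UE.Gr

/-!
# The free group of rank two
-/

set_option autoImplicit false

namespace Pool.Agent.Lib.MP_3bb35d_al.UE

/-- The free group of rank two. -/
abbrev F2 : Type := FreeGroup Bool

/-- The first generator. -/
def fx : F2 := FreeGroup.of true

/-- The second generator. -/
def fy : F2 := FreeGroup.of false

/-- The homomorphism given by a pair. -/
def ev {G : Type*} [Group G] (x y : G) : F2 →* G := FreeGroup.lift fun b => if b then x else y

theorem ev_fx {G : Type*} [Group G] (x y : G) : ev x y fx = x := by simp [ev, fx]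

theorem ev_fy {G : Type*} [Group G] (x y : G) : ev x y fy = y := by simp [ev, fy]

end Pool.Agent.Lib.MP_3bb35d_al.UE
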