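import Pool.Agent.Lib.MP_3bb35d_al.UE.P0
import Pool.Agent.Lib.MP_3bb35d_al.UE.W0

/-!
# The nine pairs of words (definitions)
-/

set_option autoImplicit false

namespace Pool.Agent.Lib.MP_3bb35d_al.UE

/-- The discriminant `a² + b² + c² - a b c - 4 = tr [x, y] - 2`. -/
def DD {R : Type*} [CommRing R] (a b c : R) : R := a ^ 2 + b ^ 2 + c ^ 2 - a * b * c - 4

/-- The function `Φ`. -/
def Ph {R : Type*} [CommRing R] (a b c : R) : R := DD a b c * a * b

/-- The three choices of `(h, g)`. -/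
def hg : Fin 3 → F2 × F2 := ![(fx, fy), (fy, fx), (fx * fy, fy⁻¹)]

/-- The three choices of `w`. -/
def wj {G : Type*} [Group G] (j : Fin 3) (h g : G) : G := ![g, g * h ^ 2 * g, g * h⁻¹ * g] j

/-- The pair `(h ^ 22, w h ^ 22 w⁻¹)`. -/
def pq {G : Type*} [Group G] (j : Fin 3) (h g : G) : G × G :=
  (h ^ 22, wj j h g * h ^ 22 * (wj j h g)⁻¹)

/-- The nine endomorphisms of the free group. -/
def th (i : Fin 3 × Fin 3) : F2 →* F2 :=
  ev (pq i.2 (hg i.1).1 (hg i.1).2).1 (pq i.2 (hg i.1).1 (hg i.1).2).2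

theorem map_wj {G G' : Type*} [Group G] [Group G'] (φ : G →* G') (j : Fin 3) (h g : G) :
    φ (wj j h g) = wj j (φ h) (φ g) := by
  fin_cases j <;> simp [wj]

theorem ev_comp_th {G : Type*} [Group G] (x y : G) (i : Fin 3 × Fin 3) :
    (ev x y).comp (th i) =
      ev (pq i.2 (ev x y (hg i.1).1) (ev x y (hg i.1).2)).1
        (pq i.2 (ev x y (hg i.1).1) (ev x y (hg i.1).2)).2 := by
  refine FreeGroup.ext_hom _ _ fun b => ?_
  cases b <;> simp [th, ev, pq, map_wj]

end Pool.Agent.Lib.MP_3bb35d_al.UE
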