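import Pool.Agent.Lib.MP_3bb35d_al.Mg.G006

/-!
# Every trace is a coordinate of a nondegenerate point
-/

set_option autoImplicit false

namespace Pool.Agent.Lib.MP_3bb35d_al.UE

private theorem Z6_Ph_map {R S : Type*} [CommRing R] [CommRing S] (φ : R →+* S) (a b c : R) :
    φ (Ph a b c) = Ph (φ a) (φ b) (φ c) := by
  simp only [Ph, DD, map_mul, map_sub, map_add, map_pow, map_ofNat]

private theorem Z6_tr_map {R S : Type*} [CommRing R] [CommRing S] (φ : R →+* S)
    (u : Matrix.SpecialLinearGroup (Fin 2) R) :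
    tr (Matrix.SpecialLinearGroup.map φ u) = φ (tr u) := by
  simp [tr]

private theorem Z6_det {R : Type*} [CommRing R] (u : Matrix.SpecialLinearGroup (Fin 2) R) :
    u 0 0 * u 1 1 - u 0 1 * u 1 0 = 1 := by
  have := u.det_coe
  rwa [Matrix.det_fin_two] at this

private theorem Z6_mul {R : Type*} [CommRing R] (u v : Matrix.SpecialLinearGroup (Fin 2) R)
    (i j : Fin 2) : (u * v) i j = u i 0 * v 0 j + u i 1 * v 1 j := by
  simp [Matrix.SpecialLinearGroup.coe_mul, Matrix.mul_apply, Fin.sum_univ_two]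

private theorem Z6_tr_mul {R : Type*} [CommRing R] (u v : Matrix.SpecialLinearGroup (Fin 2) R) :
    tr (u * v) = (u 0 0 * v 0 0 + u 0 1 * v 1 0) + (u 1 0 * v 0 1 + u 1 1 * v 1 1) := by
  rw [tr, Z6_mul, Z6_mul]

private theorem Z6_tr_conj {R : Type*} [CommRing R] (g u : Matrix.SpecialLinearGroup (Fin 2) R) :
    tr (g⁻¹ * u * g) = tr u := by
  have h1 : tr (g⁻¹ * u * g) = tr (g * (g⁻¹ * u)) := by
    rw [Z6_tr_mul, Z6_tr_mul]; ring
  rw [h1, mul_inv_cancel_left]

private theorem Z6_ext {R : Type*} [CommRing R] {u v : Matrix.SpecialLinearGroup (Fin 2) R}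
    (h00 : u 0 0 = v 0 0) (h01 : u 0 1 = v 0 1) (h10 : u 1 0 = v 1 0) (h11 : u 1 1 = v 1 1) :
    u = v := by
  apply Matrix.SpecialLinearGroup.ext
  intro i j
  fin_cases i <;> fin_cases j
  · exact h00
  · exact h01
  · exact h10
  · exact h11

private theorem Z6_DD {K : Type*} [CommRing K] (a b c d e f g h : K)
    (hu : a * d - b * c = 1) (hv : e * h - f * g = 1) :
    DD (a + d) (e + h) ((a * e + b * g) + (c * f + d * h)) =
      (b * g - c * f) ^ 2 + ((a - d) * f - b * (e - h)) * (c * (e - h) - (a - d) * g) := by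
  unfold DD
  linear_combination (-((a + d) ^ 2 - 4 * (a * d - b * c))) * hv - ((e + h) ^ 2 - 4) * hu

/-- Diagonal `s`. -/
private theorem Z6_scalar {K : Type*} [Field K] (l l' a b c d e f g h : K) (hl : l * l' = 1)
    (hu : a * d - b * c = 1) (hv : e * h - f * g = 1) (h0 : l + l' ≠ 0)
    (h2 : (l + l') ^ 2 - 4 ≠ 0)
    (hΦ : Ph (a + d) (e + h) ((a * e + b * g) + (c * f + d * h)) ≠ 0) :
    Ph (l + l') (a + d) (l * a + l' * d) ≠ 0 ∨ Ph (l + l') (e + h) (l * e + l' * h) ≠ 0 ∨
      Ph (l + l') ((a * e + b * g) + (c * f + d * h))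
        (l * (a * e + b * g) + l' * (c * f + d * h)) ≠ 0 ∨
      Ph (l + l') (l * (a * e + b * g) + l' * (c * f + d * h))
        (l * (l * (a * e + b * g)) + l' * (l' * (c * f + d * h))) ≠ 0 := by
  by_contra hcon
  push Not at hcon
  obtain ⟨e1, e2, e3, e4⟩ := hcon
  have hl0 : l ≠ 0 := left_ne_zero_of_mul_eq_one hl
  have hl0' : l' ≠ 0 := right_ne_zero_of_mul_eq_one hl
  have hab : a + d ≠ 0 ∧ e + h ≠ 0 ∧ DD (a + d) (e + h) ((a * e + b * g) + (c * f + d * h)) ≠ 0 := by
    refine ⟨?_, ?_, ?_⟩ <;> intro h' <;> apply hΦ <;> simp [Ph, h']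
  obtain ⟨ha, he, hD⟩ := hab
  -- the discriminant for a diagonal matrix
  have key : ∀ x y z w : K, x * w - y * z = 1 →
      DD (l + l') (x + w) (l * x + l' * w) = - ((l + l') ^ 2 - 4) * (y * z) := by
    intro x y z w hx
    unfold DD
    linear_combination (-((l + l') ^ 2 - 4)) * hx - (x - w) ^ 2 * hl
  have k1 : b * c = 0 := by
    have h1 := key a b c d hu
    have h3 : DD (l + l') (a + d) (l * a + l' * d) = 0 := by
      by_contra h'
      exact (mul_ne_zero (mul_ne_zero h' h0) ha) e1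
    rw [h3] at h1
    rcases mul_eq_zero.1 h1.symm with h4 | h4
    · exact absurd (neg_eq_zero.1 h4) h2
    · exact h4
  have k2 : f * g = 0 := by
    have h1 := key e f g h hv
    have h3 : DD (l + l') (e + h) (l * e + l' * h) = 0 := by
      by_contra h'
      exact (mul_ne_zero (mul_ne_zero h' h0) he) e2
    rw [h3] at h1
    rcases mul_eq_zero.1 h1.symm with h4 | h4
    · exact absurd (neg_eq_zero.1 h4) h2
    · exact h4
  -- the product is not triangular
  have hm : (a * e + b * g) * (c * f + d * h) - (a * f + b * h) * (c * e + d * g) = 1 := by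
    linear_combination (e * h - f * g) * hu + hv
  have k3 : (a * f + b * h) * (c * e + d * g) ≠ 0 →
      ¬ ((a * e + b * g) = 0 ∧ (c * f + d * h) = 0) → False := by
    intro hne hnz
    have hm2 : (l * (a * e + b * g)) * (l' * (c * f + d * h)) -
        (l * (a * f + b * h)) * (l' * (c * e + d * g)) = 1 := by
      linear_combination hl + (l * l') * hm
    have h3 := key _ _ _ _ hm
    have h4 := key _ _ _ _ hm2
    have hD3 : DD (l + l') ((a * e + b * g) + (c * f + d * h))
        (l * (a * e + b * g) + l' * (c * f + d * h)) ≠ 0 := by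
      rw [h3]; exact mul_ne_zero (neg_ne_zero.2 h2) hne
    have hD4 : DD (l + l') (l * (a * e + b * g) + l' * (c * f + d * h))
        (l * (l * (a * e + b * g)) + l' * (l' * (c * f + d * h))) ≠ 0 := by
      rw [h4]; refine mul_ne_zero (neg_ne_zero.2 h2) ?_
      have h5 : l * (a * f + b * h) * (l' * (c * e + d * g)) =
          (a * f + b * h) * (c * e + d * g) := by
        linear_combination ((a * f + b * h) * (c * e + d * g)) * hl
      rw [h5]; exact hne
    have t1 : (a * e + b * g) + (c * f + d * h) = 0 := by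
      by_contra h'
      exact (mul_ne_zero (mul_ne_zero hD3 h0) h') e3
    have t2 : l * (a * e + b * g) + l' * (c * f + d * h) = 0 := by
      by_contra h'
      exact (mul_ne_zero (mul_ne_zero hD4 h0) h') e4
    have hne2 : (l - l') ≠ 0 := by
      intro h'
      apply h2
      linear_combination (l - l') * h' + 4 * hl
    have t3 : (l - l') * (a * e + b * g) = 0 := by
      linear_combination t2 - l' * t1
    have t4 : a * e + b * g = 0 := (mul_eq_zero.1 t3).resolve_left hne2
    exact hnz ⟨t4, by rw [t4, zero_add] at t1; exact t1⟩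
  have hN := Z6_DD a b c d e f g h hu hv
  rcases mul_eq_zero.1 k1 with hb | hc
  · rcases mul_eq_zero.1 k2 with hf | hg
    · apply hD
      rw [hN, hb, hf]; ring
    · have had : a * d = 1 := by rw [hb, zero_mul, sub_zero] at hu; exact hu
      have heh : e * h = 1 := by rw [hg, mul_zero, sub_zero] at hv; exact hv
      have a0 := left_ne_zero_of_mul_eq_one had
      have e0 := left_ne_zero_of_mul_eq_one heh
      by_cases hc0 : c = 0
      · apply hD
        rw [hN, hc0, hg]; ring
      by_cases hf0 : f = 0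
      · apply hD
        rw [hN, hb, hf0]; ring
      apply k3
      · rw [hb, hg]
        simp only [zero_mul, add_zero, mul_zero]
        exact mul_ne_zero (mul_ne_zero a0 hf0) (mul_ne_zero hc0 e0)
      · rintro ⟨h5, -⟩
        rw [hb, zero_mul, add_zero] at h5
        exact mul_ne_zero a0 e0 h5
  · rcases mul_eq_zero.1 k2 with hf | hg
    · have had : a * d = 1 := by rw [hc, mul_zero, sub_zero] at hu; exact hu
      have heh : e * h = 1 := by rw [hf, zero_mul, sub_zero] at hv; exact hv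
      have d0 := right_ne_zero_of_mul_eq_one had
      have h0' := right_ne_zero_of_mul_eq_one heh
      by_cases hb0 : b = 0
      · apply hD
        rw [hN, hb0, hf]; ring
      by_cases hg0 : g = 0
      · apply hD
        rw [hN, hc, hg0]; ring
      apply k3
      · rw [hc, hf]
        simp only [zero_mul, zero_add, mul_zero]
        exact mul_ne_zero (mul_ne_zero hb0 h0') (mul_ne_zero d0 hg0)
      · rintro ⟨-, h5⟩
        rw [hc, zero_mul, zero_add] at h5
        exact mul_ne_zero d0 h0' h5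
    · apply hD
      rw [hN, hc, hg]; ring

/-- Diagonalisation. -/
private theorem Z6_diag {K : Type*} [Field K] [IsAlgClosed K]
    (s : Matrix.SpecialLinearGroup (Fin 2) K) (h2 : tr s ≠ 2) (h2' : tr s ≠ -2) :
    ∃ g : Matrix.SpecialLinearGroup (Fin 2) K, (g⁻¹ * s * g) 0 1 = 0 ∧ (g⁻¹ * s * g) 1 0 = 0 := by
  have hdet := Z6_det s
  have hform1 : ∀ g : Matrix.SpecialLinearGroup (Fin 2) K,
      (g⁻¹ * s * g) 0 1 = g 1 1 * (s 0 0 * g 0 1 + s 0 1 * g 1 1) -
        g 0 1 * (s 1 0 * g 0 1 + s 1 1 * g 1 1) := by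
    intro g
    rw [mul_assoc, Z6_mul, Z6_mul, Z6_mul, Matrix.SpecialLinearGroup.coe_inv,
      Matrix.adjugate_fin_two]
    simp; ring
  have hform2 : ∀ g : Matrix.SpecialLinearGroup (Fin 2) K,
      (g⁻¹ * s * g) 1 0 = g 0 0 * (s 1 0 * g 0 0 + s 1 1 * g 1 0) -
        g 1 0 * (s 0 0 * g 0 0 + s 0 1 * g 1 0) := by
    intro g
    rw [mul_assoc, Z6_mul, Z6_mul, Z6_mul, Matrix.SpecialLinearGroup.coe_inv,
      Matrix.adjugate_fin_two]
    simp; ring
  have hex : ∀ x y z w : K, x * w - y * z = 1 → ∃ g : Matrix.SpecialLinearGroup (Fin 2) K,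
      g 0 0 = x ∧ g 0 1 = y ∧ g 1 0 = z ∧ g 1 1 = w := by
    intro x y z w h
    exact ⟨⟨!![x, y; z, w], by rw [Matrix.det_fin_two]; exact h⟩, rfl, rfl, rfl, rfl⟩
  unfold tr at h2 h2'
  generalize s 0 0 = a at *
  generalize s 0 1 = b at *
  generalize s 1 0 = c at *
  generalize s 1 1 = d at *
  -- a root of the characteristic polynomial
  obtain ⟨l, l', hl, hll⟩ : ∃ l l' : K, l * l' = 1 ∧ l + l' = a + d := by
    obtain ⟨l, hl⟩ := IsAlgClosed.exists_root
      (Polynomial.C (1 : K) * Polynomial.X ^ 2 + Polynomial.C (-(a + d)) * Polynomial.X +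
        Polynomial.C 1) (by
        rw [Polynomial.degree_quadratic one_ne_zero]; norm_num)
    refine ⟨l, a + d - l, ?_, by ring⟩
    simp [Polynomial.IsRoot] at hl
    linear_combination -hl
  have hne : l' - l ≠ 0 := by
    intro h
    have h1 : l' = l := sub_eq_zero.1 h
    rw [h1] at hl hll
    have h3 : (l - 1) * (l + 1) = 0 := by linear_combination hl
    rcases mul_eq_zero.1 h3 with h4 | h4
    · apply h2; rw [← hll]; linear_combination 2 * h4
    · apply h2'; rw [← hll]; linear_combination 2 * h4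
  by_cases hb : b = 0
  · have had : a - d ≠ 0 := by
      intro h
      apply hne
      have h1 : a * d = 1 := by rw [hb, zero_mul, sub_zero] at hdet; exact hdet
      have h3 : (l' - l) ^ 2 = 0 := by
        have : (l' - l) ^ 2 = (l + l') ^ 2 - 4 * (l * l') := by ring
        rw [this, hll, hl, ← h1]; linear_combination (a - d) * h
      exact pow_eq_zero_iff (two_ne_zero) |>.1 h3
    obtain ⟨g, g1, g2, g3, g4⟩ := hex 1 0 (c / (a - d)) 1 (by ring)
    refine ⟨g, ?_, ?_⟩
    · rw [hform1, g2, g4, hb]; ring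
    · rw [hform2, g1, g3, hb]; field_simp; ring
  · obtain ⟨g, g1, g2, g3, g4⟩ := hex b (l' - l)⁻¹ (l - a) ((l' - a) / (b * (l' - l)))
      (by field_simp; ring)
    refine ⟨g, ?_, ?_⟩
    · rw [hform1, g2, g4]
      field_simp
      linear_combination l' * hll - hl + hdet
    · rw [hform2, g1, g3]
      linear_combination (-b) * (l * hll - hl + hdet)

/-- Algebraically closed fields. -/
private theorem Z6_closed {K : Type*} [Field K] [IsAlgClosed K]
    (u v s : Matrix.SpecialLinearGroup (Fin 2) K)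
    (hΦ : Ph (tr u) (tr v) (tr (u * v)) ≠ 0) (h0 : tr s ≠ 0) (h2 : tr s ≠ 2) (h2' : tr s ≠ -2) :
    Ph (tr s) (tr u) (tr (s * u)) ≠ 0 ∨ Ph (tr s) (tr v) (tr (s * v)) ≠ 0 ∨
      Ph (tr s) (tr (u * v)) (tr (s * (u * v))) ≠ 0 ∨
      Ph (tr s) (tr (s * (u * v))) (tr (s * (s * (u * v)))) ≠ 0 := by
  obtain ⟨g, hg1, hg2⟩ := Z6_diag s h2 h2'
  have hc : ∀ x y : Matrix.SpecialLinearGroup (Fin 2) K,
      g⁻¹ * (x * y) * g = (g⁻¹ * x * g) * (g⁻¹ * y * g) := by
    intro x y; group
  rw [← Z6_tr_conj g u, ← Z6_tr_conj g v, ← Z6_tr_conj g (u * v), hc] at hΦ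
  rw [← Z6_tr_conj g s] at h0 h2 h2'
  rw [← Z6_tr_conj g s, ← Z6_tr_conj g u, ← Z6_tr_conj g v, ← Z6_tr_conj g (u * v),
    ← Z6_tr_conj g (s * u), ← Z6_tr_conj g (s * v), ← Z6_tr_conj g (s * (u * v)),
    ← Z6_tr_conj g (s * (s * (u * v))), hc s (s * (u * v)), hc s (u * v), hc s u, hc s v, hc u v]
  generalize g⁻¹ * s * g = s' at *
  generalize g⁻¹ * u * g = u' at *
  generalize g⁻¹ * v * g = v' at *
  have hs := Z6_det s'
  rw [hg1, zero_mul, sub_zero] at hs
  have e1 : ∀ x : Matrix.SpecialLinearGroup (Fin 2) K,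
      tr (s' * x) = s' 0 0 * x 0 0 + s' 1 1 * x 1 1 := by
    intro x; rw [Z6_tr_mul, hg1, hg2]; ring
  have e2 : tr (s' * (s' * (u' * v'))) = s' 0 0 * (s' 0 0 * (u' * v') 0 0) +
      s' 1 1 * (s' 1 1 * (u' * v') 1 1) := by
    rw [e1, Z6_mul s', Z6_mul s', hg1, hg2]; ring
  rw [e2, e1, e1, e1]
  simp only [Z6_mul u' v']
  rw [Z6_tr_mul] at hΦ ⊢
  unfold tr at *
  refine Z6_scalar _ _ _ _ _ _ _ _ _ _ hs (Z6_det u') (Z6_det v') h0 ?_ hΦ
  intro h
  have h3 : (s' 0 0 + s' 1 1 - 2) * (s' 0 0 + s' 1 1 + 2) = 0 := by linear_combination h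
  rcases mul_eq_zero.1 h3 with h4 | h4
  · exact h2 (by linear_combination h4)
  · exact h2' (by linear_combination h4)


/-- PROOF. We may assume that `F` is algebraically closed (map to the algebraic closure, `tr`, `DD`, `Ph` commute with it). `s` has two different eigenvalues `l, l⁻¹` (`tr s ≠ ±2`); choose a basis of eigenvectors (conjugation preserves all traces): `s = diag(l, l⁻¹)`. For every `z`: `DD (tr s) (tr z) (tr (s z)) = -(l - l⁻¹)² z₀₁ z₁₀`.
If `u₀₁ u₁₀ ≠ 0` take `z = u` (`tr s, tr u ≠ 0`); if `v₀₁ v₁₀ ≠ 0` take `z = v`. Otherwise `u₀₁ u₁₀ = 0 = v₀₁ v₁₀`. `u₀₁ = v₀₁ = 0` or `u₁₀ = v₁₀ = 0` is impossible, because then `DD (tr u) (tr v) (tr (u v)) = 0` (triangular matrices: the commutator has trace two). So (say) `u₀₁ = 0`, `v₁₀ = 0`, `u₁₀ ≠ 0`, `v₀₁ ≠ 0` (the other case: exchange the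
two basis vectors). `u v` has the entries `(u v)₀₀ = u₀₀ v₀₀ ≠ 0`, `(u v)₀₁ = u₀₀ v₀₁ ≠ 0`, `(u v)₁₀ = u₁₀ v₀₀ ≠ 0`; so `DD (tr s) (tr (u v)) (tr (s (u v))) ≠ 0`, and `tr (u v)`, `tr (s (u v)) = l (u v)₀₀ + l⁻¹ (u v)₁₁` are not both zero (otherwise `(l - l⁻¹) (u v)₀₀ = 0`). If `tr (u v) ≠ 0` take `z = u v`, otherwise `z = s (u v)`
(`DD (tr s) (tr (s z)) (tr (s (s z))) = DD (tr s) (tr z) (tr (s z))`). In the other case (`u₁₀ = 0`, `v₀₁ = 0`): `(u v)₁₁ = u₁₁ v₁₁ ≠ 0`, `(u v)₀₁ = u₀₁ v₁₁ ≠ 0`, `(u v)₁₀ = u₁₁ v₁₀ ≠ 0`. -/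
theorem exists_partner {F : Type*} [Field F] (u v s : Matrix.SpecialLinearGroup (Fin 2) F)
    (hΦ : Ph (tr u) (tr v) (tr (u * v)) ≠ 0) (h0 : tr s ≠ 0) (h2 : tr s ≠ 2) (h2' : tr s ≠ -2) :
    ∃ z : Matrix.SpecialLinearGroup (Fin 2) F,
      (z = u ∨ z = v ∨ z = u * v ∨ z = s * (u * v)) ∧ Ph (tr s) (tr z) (tr (s * z)) ≠ 0 := by
  let φ : F →+* AlgebraicClosure F := algebraMap F (AlgebraicClosure F)
  have hφ : Function.Injective φ := φ.injective
  have hne : ∀ x : F, φ x ≠ 0 ↔ x ≠ 0 := fun x => (map_ne_zero_iff φ hφ)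
  let m := Matrix.SpecialLinearGroup.map (n := Fin 2) φ
  have h := Z6_closed (m u) (m v) (m s) (by
      rw [← map_mul, Z6_tr_map, Z6_tr_map, Z6_tr_map, ← Z6_Ph_map, hne]; exact hΦ)
    (by rw [Z6_tr_map, hne]; exact h0)
    (by rw [Z6_tr_map]; intro h; apply h2; apply hφ; rw [h, map_ofNat])
    (by rw [Z6_tr_map]; intro h; apply h2'; apply hφ; rw [h, map_neg, map_ofNat])
  simp only [← map_mul] at h
  simp only [m, Z6_tr_map, ← Z6_Ph_map, hne] at h
  rcases h with h | h | h | h
  · exact ⟨u, Or.inl rfl, h⟩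
  · exact ⟨v, Or.inr (Or.inl rfl), h⟩
  · exact ⟨u * v, Or.inr (Or.inr (Or.inl rfl)), h⟩
  · exact ⟨s * (u * v), Or.inr (Or.inr (Or.inr rfl)), h⟩

/-- PROOF. The four linear forms `q ↦ tr q, tr (u q), tr (v q), tr (u v q)` on the `2 × 2` matrices are linearly independent, because the matrices `1, u, v, u v` are (determinant of the `4 × 4` matrix of their entries is `± DD`, see `Rep_eq_one_of_ev`) and the trace form is nondegenerate. So `s - s'` is zero. -/
theorem eq_of_traces {F : Type*} [Field F] (u v s s' : Matrix.SpecialLinearGroup (Fin 2) F)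
    (hD : DD (tr u) (tr v) (tr (u * v)) ≠ 0) (e0 : tr s = tr s') (e1 : tr (u * s) = tr (u * s'))
    (e2 : tr (v * s) = tr (v * s')) (e3 : tr (u * v * s) = tr (u * v * s')) : s = s' := by
  rw [Z6_tr_mul, Z6_tr_mul] at e1 e2
  rw [Z6_tr_mul (u * v), Z6_tr_mul (u * v), Z6_mul u v, Z6_mul u v, Z6_mul u v, Z6_mul u v] at e3
  rw [Z6_tr_mul] at hD
  unfold tr at e0 hD
  rw [Z6_DD _ _ _ _ _ _ _ _ (Z6_det u) (Z6_det v)] at hD
  have hdet : (!![1, 0, 0, 1; u 0 0, u 1 0, u 0 1, u 1 1; v 0 0, v 1 0, v 0 1, v 1 1;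
      u 0 0 * v 0 0 + u 0 1 * v 1 0, u 1 0 * v 0 0 + u 1 1 * v 1 0,
      u 0 0 * v 0 1 + u 0 1 * v 1 1, u 1 0 * v 0 1 + u 1 1 * v 1 1] :
      Matrix (Fin 4) (Fin 4) F).det ≠ 0 := by
    intro h
    apply hD
    rw [← h]
    simp [Matrix.det_succ_row_zero, Fin.sum_univ_succ, Fin.succAbove]
    ring
  have hq := Matrix.eq_zero_of_mulVec_eq_zero hdet (v := ![s 0 0 - s' 0 0, s 0 1 - s' 0 1,
    s 1 0 - s' 1 0, s 1 1 - s' 1 1]) (by
      ext i
      fin_cases i
      · simp [Matrix.mulVec, dotProduct, Fin.sum_univ_succ]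
        linear_combination e0
      · simp [Matrix.mulVec, dotProduct, Fin.sum_univ_succ]
        linear_combination e1
      · simp [Matrix.mulVec, dotProduct, Fin.sum_univ_succ]
        linear_combination e2
      · simp [Matrix.mulVec, dotProduct, Fin.sum_univ_succ]
        linear_combination e3)
  have q0 := congrFun hq 0
  have q1 := congrFun hq 1
  have q2 := congrFun hq 2
  have q3 := congrFun hq 3
  exact Z6_ext (sub_eq_zero.1 q0) (sub_eq_zero.1 q1) (sub_eq_zero.1 q2) (sub_eq_zero.1 q3)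

/-- Matrices with given diagonal. -/
private theorem Z6_card_diag {p : ℕ} [Fact p.Prime] (S : Finset (SL2 p))
    (h0 : ∀ g ∈ S, ∀ h ∈ S, g 0 0 = h 0 0) (h1 : ∀ g ∈ S, ∀ h ∈ S, g 1 1 = h 1 1) :
    S.card ≤ 2 * p := by
  classical
  have hp : Fintype.card (ZMod p) = p := ZMod.card p
  rw [← Finset.card_filter_add_card_filter_not (s := S) (fun g : SL2 p => g 0 1 = 0), two_mul]
  refine add_le_add ?_ ?_
  · refine (Finset.card_le_card_of_injOn (fun g : SL2 p => g 1 0) (t := Finset.univ)
      (fun _ _ => Finset.mem_coe.2 (Finset.mem_univ _)) ?_).trans (by rw [Finset.card_univ, hp])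
    intro g hg h hh hgh
    simp only [Finset.coe_filter, Set.mem_ofPred_eq] at hg hh
    exact Z6_ext (h0 _ hg.1 _ hh.1) (hg.2.trans hh.2.symm) hgh (h1 _ hg.1 _ hh.1)
  · refine (Finset.card_le_card_of_injOn (fun g : SL2 p => g 0 1) (t := Finset.univ)
      (fun _ _ => Finset.mem_coe.2 (Finset.mem_univ _)) ?_).trans (by rw [Finset.card_univ, hp])
    intro g hg h hh hgh
    simp only [Finset.coe_filter, Set.mem_ofPred_eq] at hg hh
    have e0 := h0 _ hg.1 _ hh.1
    have e1 := h1 _ hg.1 _ hh.1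
    have hgh' : g 0 1 = h 0 1 := hgh
    have d1 := Z6_det g
    have d2 := Z6_det h
    have e2 : g 1 0 = h 1 0 := by
      apply mul_left_cancel₀ hg.2
      rw [hgh'] at d1 ⊢
      rw [e0, e1] at d1
      linear_combination d2 - d1
    exact Z6_ext e0 hgh' e2 e1

private theorem Z6_card_tr {p : ℕ} [Fact p.Prime] (a : ZMod p) :
    (Finset.univ.filter fun g : SL2 p => tr g = a).card ≤ 2 * p * p := by
  classical
  have hp : Fintype.card (ZMod p) = p := ZMod.card p
  have h := Finset.card_le_mul_card_image_of_maps_to (f := fun g : SL2 p => g 0 0)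
    (s := Finset.univ.filter fun g : SL2 p => tr g = a) (t := Finset.univ)
    (fun _ _ => Finset.mem_univ _) (2 * p) (by
      intro x _
      apply Z6_card_diag
      · intro g hg h hh
        simp only [Finset.mem_filter, Finset.mem_univ, true_and] at hg hh
        rw [hg.2, hh.2]
      · intro g hg h hh
        simp only [Finset.mem_filter, Finset.mem_univ, true_and] at hg hh
        have h1 := hg.1
        have h2 := hh.1
        unfold tr at h1 h2
        linear_combination h1 - h2 - hg.2 + hh.2)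
  rwa [Finset.card_univ, hp] at h

private theorem Z6_quad {F : Type*} [Field F] {α κ γ x1 x2 x3 : F} (hα : α ≠ 0) (h12 : x1 ≠ x2)
    (h13 : x1 ≠ x3) (h23 : x2 ≠ x3) (e1 : α * x1 ^ 2 + κ * x1 + γ = 0)
    (e2 : α * x2 ^ 2 + κ * x2 + γ = 0) (e3 : α * x3 ^ 2 + κ * x3 + γ = 0) : False := by
  have f1 : (x1 - x2) * (α * (x1 + x2) + κ) = 0 := by linear_combination e1 - e2
  have f2 : (x1 - x3) * (α * (x1 + x3) + κ) = 0 := by linear_combination e1 - e3
  have g1 := (mul_eq_zero.1 f1).resolve_left (sub_ne_zero.2 h12)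
  have g2 := (mul_eq_zero.1 f2).resolve_left (sub_ne_zero.2 h13)
  have g3 : α * (x2 - x3) = 0 := by linear_combination g1 - g2
  exact mul_ne_zero hα (sub_ne_zero.2 h23) g3

private theorem Z6_card_fib {p : ℕ} [Fact p.Prime] (u : SL2 p) (b c : ZMod p)
    (hu : u 0 1 = 0 → u 1 0 = 0 → u 0 0 ≠ u 1 1) :
    (Finset.univ.filter fun v : SL2 p => tr v = b ∧ tr (u * v) = c).card ≤ 2 * p := by
  classical
  have hp : Fintype.card (ZMod p) = p := ZMod.card p
  by_cases h01 : u 0 1 = 0
  · by_cases h10 : u 1 0 = 0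
    · have hd := sub_ne_zero.2 (hu h01 h10)
      have key : ∀ v : SL2 p, tr v = b → tr (u * v) = c →
          (u 0 0 - u 1 1) * v 0 0 = c - u 1 1 * b := by
        intro v hv hv'
        rw [Z6_tr_mul, h01, h10] at hv'
        unfold tr at hv
        linear_combination hv' - u 1 1 * hv
      apply Z6_card_diag
      · intro g hg h hh
        simp only [Finset.mem_filter, Finset.mem_univ, true_and] at hg hh
        apply mul_left_cancel₀ hd
        rw [key g hg.1 hg.2, key h hh.1 hh.2]
      · intro g hg h hh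
        simp only [Finset.mem_filter, Finset.mem_univ, true_and] at hg hh
        have h1 : g 0 0 = h 0 0 := by
          apply mul_left_cancel₀ hd
          rw [key g hg.1 hg.2, key h hh.1 hh.2]
        have h2 := hg.1
        have h3 := hh.1
        unfold tr at h2 h3
        linear_combination h2 - h3 - h1
    · have h := Finset.card_le_mul_card_image_of_maps_to (f := fun g : SL2 p => g 1 0)
        (s := Finset.univ.filter fun v : SL2 p => tr v = b ∧ tr (u * v) = c) (t := Finset.univ)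
        (fun _ _ => Finset.mem_univ _) 2 (by
          intro z _
          by_contra hcon
          rw [not_le] at hcon
          obtain ⟨v1, m1, v2, m2, v3, m3, n12, n13, n23⟩ := Finset.two_lt_card.1 hcon
          simp only [Finset.mem_filter, Finset.mem_univ, true_and] at m1 m2 m3
          have inj : ∀ v w : SL2 p, (tr v = b ∧ tr (u * v) = c) ∧ v 1 0 = z →
              (tr w = b ∧ tr (u * w) = c) ∧ w 1 0 = z → v ≠ w → v 0 0 ≠ w 0 0 := by
            rintro v w ⟨⟨a1, a2⟩, a3⟩ ⟨⟨b1, b2⟩, b3⟩ hne h00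
            apply hne
            rw [Z6_tr_mul] at a2 b2
            unfold tr at a1 b1
            have h11 : v 1 1 = w 1 1 := by linear_combination a1 - b1 - h00
            refine Z6_ext h00 ?_ (a3.trans b3.symm) h11
            apply mul_left_cancel₀ h10
            rw [h00, h11, a3] at a2
            rw [b3] at b2
            linear_combination a2 - b2
          have quad : ∀ v : SL2 p, (tr v = b ∧ tr (u * v) = c) ∧ v 1 0 = z →
              u 1 0 * v 0 0 ^ 2 + (- (u 1 0 * b) - z * (u 0 0 - u 1 1)) * v 0 0 +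
                (u 1 0 + z * (c - u 0 1 * z - u 1 1 * b)) = 0 := by
            rintro v ⟨⟨a1, a2⟩, a3⟩
            have hd := Z6_det v
            rw [Z6_tr_mul, a3] at a2
            rw [a3] at hd
            unfold tr at a1
            linear_combination (-u 1 0) * hd - z * a2 + (u 1 0 * v 0 0 + z * u 1 1) * a1
          exact Z6_quad h10 (inj _ _ m1 m2 n12) (inj _ _ m1 m3 n13) (inj _ _ m2 m3 n23)
            (quad _ m1) (quad _ m2) (quad _ m3))
      rwa [Finset.card_univ, hp] at h
  · have h := Finset.card_le_mul_card_image_of_maps_to (f := fun g : SL2 p => g 0 1)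
      (s := Finset.univ.filter fun v : SL2 p => tr v = b ∧ tr (u * v) = c) (t := Finset.univ)
      (fun _ _ => Finset.mem_univ _) 2 (by
        intro z _
        by_contra hcon
        rw [not_le] at hcon
        obtain ⟨v1, m1, v2, m2, v3, m3, n12, n13, n23⟩ := Finset.two_lt_card.1 hcon
        simp only [Finset.mem_filter, Finset.mem_univ, true_and] at m1 m2 m3
        have inj : ∀ v w : SL2 p, (tr v = b ∧ tr (u * v) = c) ∧ v 0 1 = z →
            (tr w = b ∧ tr (u * w) = c) ∧ w 0 1 = z → v ≠ w → v 0 0 ≠ w 0 0 := by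
          rintro v w ⟨⟨a1, a2⟩, a3⟩ ⟨⟨b1, b2⟩, b3⟩ hne h00
          apply hne
          rw [Z6_tr_mul] at a2 b2
          unfold tr at a1 b1
          have h11 : v 1 1 = w 1 1 := by linear_combination a1 - b1 - h00
          refine Z6_ext h00 (a3.trans b3.symm) ?_ h11
          apply mul_left_cancel₀ h01
          rw [h00, h11, a3] at a2
          rw [b3] at b2
          linear_combination a2 - b2
        have quad : ∀ v : SL2 p, (tr v = b ∧ tr (u * v) = c) ∧ v 0 1 = z →
            u 0 1 * v 0 0 ^ 2 + (- (u 0 1 * b) - z * (u 0 0 - u 1 1)) * v 0 0 +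
              (u 0 1 + z * (c - u 1 0 * z - u 1 1 * b)) = 0 := by
          rintro v ⟨⟨a1, a2⟩, a3⟩
          have hd := Z6_det v
          rw [Z6_tr_mul, a3] at a2
          rw [a3] at hd
          unfold tr at a1
          linear_combination (-u 0 1) * hd - z * a2 + (u 0 1 * v 0 0 + z * u 1 1) * a1
        exact Z6_quad h01 (inj _ _ m1 m2 n12) (inj _ _ m1 m3 n13) (inj _ _ m2 m3 n23)
          (quad _ m1) (quad _ m2) (quad _ m3))
    rwa [Finset.card_univ, hp] at h

/-- PROOF. For `(a, b, c)` with `DD a b c ≠ 0`. The number of `u` is at most `|SL₂(p)| ≤ p³`, hence it suffices to bound by a constant times ... precisely: `(u, v) ↦ u` has image in the set of `u` with trace `a`, at most `2 p²` elements (`u₀₀` and `u₀₁` free: `u₁₁ = a - u₀₀`; if `u₀₁ ≠ 0` then `u₁₀` is determined; if `u₀₁ = 0` then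
`u₀₀ (a - u₀₀) = 1` (at most two `u₀₀`) and `u₁₀` is free: at most `p (p - 1) + 2 p ≤ 2 p²`). For fixed `u ≠ ±1` (as `DD ≠ 0`) the number of `v` with `tr v = b`, `tr (u v) = c`: the two linear forms `tr v`, `tr (u v)` in the entries of `v` are linearly independent, so `v` is in a plane `{v₀ + s v₁ + t v₂}` (over `ZMod p`), with the equation
`det v = 1`, a quadratic polynomial in `(s, t)` which is not zero; so at most `2 p` solutions: the polynomial is not zero, because otherwise all `v` of the plane over the algebraic closure `K` satisfy `det v = 1`, and (in a basis where `u` is triangular or diagonal over `K`) this fails: if `u = diag(l, l⁻¹)`, `l ≠ l⁻¹`, then `v₀₀, v₁₁` are determined and the plane is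
`{(v₀₁, v₁₀)}`, `det v = v₀₀ v₁₁ - v₀₁ v₁₀` is not constant; if `u = ± !![1, 1; 0, 1]` then `v₁₀` is determined, nonzero as `DD = (v₁₀)² ≠ 0`, `v₀₀ + v₁₁ = b`, and `det v = v₀₀ (b - v₀₀) - v₀₁ v₁₀` is not constant. (A nonzero polynomial of total degree `≤ 2` in two variables over a field with `p` elements has at most `2 p` zeros: Schwartz-Zippel, or by hand.)
Other proofs are welcome, the constant `4` may not be changed. -/
theorem card_pairs {p : ℕ} [Fact p.Prime] (P : Fin 3 → ZMod p) (hD : DD (P 0) (P 1) (P 2) ≠ 0) :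
    {e : SL2 p × SL2 p | trP e.1 e.2 = P}.ncard ≤ 4 * p ^ 3 := by
  classical
  have hset : {e : SL2 p × SL2 p | trP e.1 e.2 = P} =
      ↑(Finset.univ.filter fun e : SL2 p × SL2 p => trP e.1 e.2 = P) := by
    ext e; simp
  rw [hset, Set.ncard_coe_finset]
  have hP : ∀ e : SL2 p × SL2 p, trP e.1 e.2 = P →
      tr e.1 = P 0 ∧ tr e.2 = P 1 ∧ tr (e.1 * e.2) = P 2 := by
    rintro e he
    exact ⟨congrFun he 0, congrFun he 1, congrFun he 2⟩
  have h := Finset.card_le_mul_card_image_of_maps_to (f := fun e : SL2 p × SL2 p => e.1)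
    (s := Finset.univ.filter fun e : SL2 p × SL2 p => trP e.1 e.2 = P)
    (t := Finset.univ.filter fun g : SL2 p => tr g = P 0)
    (fun e he => by
      simp only [Finset.mem_filter, Finset.mem_univ, true_and] at he ⊢
      exact (hP e he).1) (2 * p) (by
      intro u hu
      simp only [Finset.mem_filter, Finset.mem_univ, true_and] at hu
      by_cases hns : u 0 1 = 0 → u 1 0 = 0 → u 0 0 ≠ u 1 1
      · refine le_trans ?_ (Z6_card_fib u (P 1) (P 2) hns)
        refine Finset.card_le_card_of_injOn (fun e => e.2) ?_ ?_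
        · intro e he
          simp only [Finset.coe_filter, Finset.mem_filter, Finset.mem_univ, true_and,
            Set.mem_ofPred_eq] at he ⊢
          obtain ⟨h1, h2⟩ := he
          have h3 := hP e h1
          rw [h2] at h3
          exact h3.2
        · intro e he e' he' hee
          simp only [Finset.coe_filter, Finset.mem_filter, Finset.mem_univ, true_and,
            Set.mem_ofPred_eq] at he he'
          exact Prod.ext (he.2.trans he'.2.symm) hee
      · push Not at hns
        obtain ⟨n1, n2, n3⟩ := hns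
        rw [Finset.card_eq_zero.2]
        · exact Nat.zero_le _
        rw [Finset.filter_eq_empty_iff]
        intro e he h2
        simp only [Finset.mem_filter, Finset.mem_univ, true_and] at he
        have h3 := hP e he
        rw [h2] at h3
        apply hD
        have h4 := Z6_DD _ _ _ _ _ _ _ _ (Z6_det u) (Z6_det e.2)
        rw [Z6_tr_mul] at h3
        obtain ⟨h5, h6, h7⟩ := h3
        unfold tr at h5 h6
        rw [h5, h6, h7] at h4
        rw [h4, n1, n2, n3]; ring)
  refine h.trans ?_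
  refine (Nat.mul_le_mul_left _ (Z6_card_tr (P 0))).trans (le_of_eq ?_)
  ring

end Pool.Agent.Lib.MP_3bb35d_al.UE
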