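import Pool.Agent.Lib.MP_3bb35d_al.UE.P0
import Pool.Agent.Lib.MP_3bb35d_al.Mg.G014

/-!
# From `SL₂(p)` to `PSL₂(p)`
-/

set_option autoImplicit false

namespace Pool.Agent.Lib.MP_3bb35d_al.UE

/-- The quotient map. -/
def toPSL (p : ℕ) : SL2 p →* PSL2 p := QuotientGroup.mk' _

private theorem Z9_surj (p : ℕ) : Function.Surjective (toPSL p) := QuotientGroup.mk'_surjective _

private theorem Z9_center {p : ℕ} {c : SL2 p} (hc : c ∈ Subgroup.center (SL2 p)) :
    ∃ r : ZMod p, r ^ 2 = 1 ∧ (c : Matrix (Fin 2) (Fin 2) (ZMod p)) = Matrix.scalar (Fin 2) r := by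
  obtain ⟨r, hr, h⟩ := Matrix.SpecialLinearGroup.mem_center_iff.1 hc
  exact ⟨r, by simpa using hr, h.symm⟩

private theorem Z9_center_sq {p : ℕ} {c : SL2 p} (hc : c ∈ Subgroup.center (SL2 p)) :
    c ^ 2 = 1 := by
  obtain ⟨r, hr, h⟩ := Z9_center hc
  refine Subtype.ext ?_
  rw [Matrix.SpecialLinearGroup.coe_pow, Matrix.SpecialLinearGroup.coe_one, h, ← map_pow, hr,
    map_one]

private theorem Z9_eq {p : ℕ} {g h : SL2 p} (e : toPSL p g = toPSL p h) :
    ∃ c ∈ Subgroup.center (SL2 p), h = g * c := by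
  refine ⟨g⁻¹ * h, ?_, by group⟩
  exact QuotientGroup.eq.1 e

/-- Upper triangular. -/
private def Z9_u {p : ℕ} (t : ZMod p) : SL2 p :=
  ⟨!![1, t; 0, 1], by rw [Matrix.det_fin_two_of]; ring⟩

/-- Lower triangular. -/
private def Z9_l {p : ℕ} (t : ZMod p) : SL2 p :=
  ⟨!![1, 0; t, 1], by rw [Matrix.det_fin_two_of]; ring⟩

private theorem Z9_ext {p : ℕ} {g h : SL2 p} (h00 : g 0 0 = h 0 0) (h01 : g 0 1 = h 0 1)
    (h10 : g 1 0 = h 1 0) (h11 : g 1 1 = h 1 1) : g = h := by
  refine Subtype.ext ?_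
  ext i j
  fin_cases i <;> fin_cases j
  · exact h00
  · exact h01
  · exact h10
  · exact h11

private theorem Z9_det {p : ℕ} (g : SL2 p) : g 0 0 * g 1 1 - g 0 1 * g 1 0 = 1 := by
  have h := g.2
  rw [Matrix.det_fin_two] at h
  exact h

private theorem Z9_mul {p : ℕ} (g h : SL2 p) (i j : Fin 2) :
    (g * h) i j = g i 0 * h 0 j + g i 1 * h 1 j := by
  show ((g * h : SL2 p) : Matrix (Fin 2) (Fin 2) (ZMod p)) i j = _
  rw [Matrix.SpecialLinearGroup.coe_mul, Matrix.mul_apply, Fin.sum_univ_two]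

private theorem Z9_u_sq {p : ℕ} [Fact p.Prime] (h2 : (2 : ZMod p) ≠ 0) (t : ZMod p) :
    Z9_u (t / 2) ^ 2 = Z9_u t := by
  rw [pow_two]
  have e : t / 2 + t / 2 = t := by field_simp; ring
  refine Z9_ext ?_ ?_ ?_ ?_ <;> rw [Z9_mul] <;> simp [Z9_u, e]

private theorem Z9_l_sq {p : ℕ} [Fact p.Prime] (h2 : (2 : ZMod p) ≠ 0) (t : ZMod p) :
    Z9_l (t / 2) ^ 2 = Z9_l t := by
  rw [pow_two]
  have e : t / 2 + t / 2 = t := by field_simp; ring
  refine Z9_ext ?_ ?_ ?_ ?_ <;> rw [Z9_mul] <;> simp [Z9_l, e]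

private theorem Z9_fac {p : ℕ} [Fact p.Prime] (g : SL2 p) (hc : g 1 0 ≠ 0) :
    g = Z9_u ((g 0 0 - 1) / g 1 0) * Z9_l (g 1 0) * Z9_u ((g 1 1 - 1) / g 1 0) := by
  have hd := Z9_det g
  refine Z9_ext ?_ ?_ ?_ ?_
  · rw [Z9_mul, Z9_mul, Z9_mul]
    simp only [Z9_u, Z9_l, Matrix.of_apply, Matrix.cons_val', Matrix.cons_val_zero,
      Matrix.cons_val_one, Matrix.cons_val_fin_one]
    field_simp
    ring
  · rw [Z9_mul, Z9_mul, Z9_mul]
    simp only [Z9_u, Z9_l, Matrix.of_apply, Matrix.cons_val', Matrix.cons_val_zero,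
      Matrix.cons_val_one, Matrix.cons_val_fin_one]
    field_simp
    linear_combination -hd
  · rw [Z9_mul, Z9_mul, Z9_mul]
    simp only [Z9_u, Z9_l, Matrix.of_apply, Matrix.cons_val', Matrix.cons_val_zero,
      Matrix.cons_val_one, Matrix.cons_val_fin_one]
    ring
  · rw [Z9_mul, Z9_mul, Z9_mul]
    simp only [Z9_u, Z9_l, Matrix.of_apply, Matrix.cons_val', Matrix.cons_val_zero,
      Matrix.cons_val_one, Matrix.cons_val_fin_one]
    field_simp
    ring

private theorem Z9_two {p : ℕ} [Fact p.Prime] (hp : 3 ≤ p) : (2 : ZMod p) ≠ 0 := by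
  intro h
  have h1 : ((2 : ℕ) : ZMod p) = 0 := by exact_mod_cast h
  rw [ZMod.natCast_eq_zero_iff] at h1
  have := Nat.le_of_dvd (by norm_num) h1
  omega

private theorem Z9_top {p : ℕ} [Fact p.Prime] (H : Subgroup (SL2 p)) (hu : ∀ t, Z9_u t ∈ H)
    (hl : ∀ t, Z9_l t ∈ H) : H = ⊤ := by
  have key : ∀ g : SL2 p, g 1 0 ≠ 0 → g ∈ H := by
    intro g hg
    rw [Z9_fac g hg]
    exact H.mul_mem (H.mul_mem (hu _) (hl _)) (hu _)
  refine (Subgroup.eq_top_iff' H).2 fun g => ?_
  by_cases hg : g 1 0 = 0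
  · have hd := Z9_det g
    rw [hg, mul_zero, sub_zero] at hd
    have ha : g 0 0 ≠ 0 := by
      intro h0
      rw [h0, zero_mul] at hd
      exact zero_ne_one hd
    have h1 : (Z9_l 1 * g : SL2 p) 1 0 ≠ 0 := by
      rw [Z9_mul, hg, mul_zero, add_zero]
      simpa [Z9_l] using ha
    have h2 := key _ h1
    have h3 : g = (Z9_l 1)⁻¹ * (Z9_l 1 * g) := by group
    rw [h3]
    exact H.mul_mem (H.inv_mem (hl 1)) h2
  · exact key g hg

/-- PROOF. `p` odd. Let `H` be the group generated by the `S j`. Every `g ∈ SL₂(p)` has `g ∈ H` or `-g ∈ H` (the kernel of `toPSL` is the centre `{1, -1}`; scalar matrices `c` with `c² = 1`), so `g² ∈ H` for all `g`. `!![1, t; 0, 1] = !![1, t / 2; 0, 1] ^ 2`, similarly for the lower triangular ones, and these generate `SL₂(p)`. -/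
theorem lift_generates {p : ℕ} [Fact p.Prime] (hp : 3 ≤ p) {k : ℕ} (S : Fin k → SL2 p)
    (h : Subgroup.closure (Set.range fun i => toPSL p (S i)) = ⊤) :
    Subgroup.closure (Set.range S) = ⊤ := by
  set H := Subgroup.closure (Set.range S) with hH
  have h1 : H.map (toPSL p) = ⊤ := by
    rw [hH, MonoidHom.map_closure, ← Set.range_comp]
    exact h
  have hsq : ∀ g : SL2 p, g ^ 2 ∈ H := by
    intro g
    have h2 : toPSL p g ∈ H.map (toPSL p) := by rw [h1]; trivial
    obtain ⟨x, hx, hxg⟩ := Subgroup.mem_map.1 h2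
    obtain ⟨c, hc, rfl⟩ := Z9_eq hxg
    have h3 : x * c = c * x := (Subgroup.mem_center_iff.1 hc x)
    have h4 : (x * c) ^ 2 = x ^ 2 := by
      have h5 : Commute x c := h3
      rw [h5.mul_pow, Z9_center_sq hc, mul_one]
    rw [h4]
    exact H.pow_mem hx 2
  refine Z9_top H (fun t => ?_) fun t => ?_
  · rw [← Z9_u_sq (Z9_two hp)]
    exact hsq _
  · rw [← Z9_l_sq (Z9_two hp)]
    exact hsq _

/-- PROOF. For each tuple `S̄` of the first set choose a lift `S` (`QuotientGroup.mk_surjective`): injective map to the second set by `lift_generates` and `IsExpander.map` (if `S` were an `ε`-expander then `S̄` would be an `(ε / (2 k))`-expander). -/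
theorem card_psl_le {p : ℕ} [Fact p.Prime] (hp : 3 ≤ p) {k : ℕ} (hk : 1 ≤ k) {ε : ℝ}
    (hε : 0 ≤ ε) :
    {S : Fin k → PSL2 p | Subgroup.closure (Set.range S) = ⊤ ∧
      ¬ IsExpander (ε / (2 * k)) (Set.range S)}.ncard ≤
      {S : Fin k → SL2 p | Subgroup.closure (Set.range S) = ⊤ ∧
        ¬ IsExpander ε (Set.range S)}.ncard := by
  classical
  have : Fintype (PSL2 p) := Fintype.ofFinite _
  choose lf hlf using Z9_surj p
  refine Set.ncard_le_ncard_of_injOn (fun S i => lf (S i)) ?_ ?_ (Set.toFinite _)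
  · rintro S ⟨hS1, hS2⟩
    have h1 : (fun i => toPSL p (lf (S i))) = S := funext fun i => hlf (S i)
    refine ⟨lift_generates hp _ ?_, fun hE => hS2 ?_⟩
    · rw [h1]
      exact hS1
    · have h2 := IsExpander.map (toPSL p) (Z9_surj p) (fun i => lf (S i)) hE hk hε
      rw [h1] at h2
      exact h2
  · intro S _ S' _ h
    funext i
    have h1 : lf (S i) = lf (S' i) := congrFun h i
    rw [← hlf (S i), h1, hlf]

/-- PROOF: an element commuting with all of `PSL₂(p)`: a lift `g` satisfies `g x = ± x g` for all `x ∈ SL₂(p)`; with `x = !![1, 1; 0, 1]` and `x = !![1, 0; 1, 1]` (trace `2 ≠ -2` if `p` is odd, so `g x g⁻¹ = x`), `g` is a scalar matrix, in the centre. (`p ≥ 3`.) -/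
theorem psl_center {p : ℕ} [Fact p.Prime] (hp : 3 ≤ p) {g : PSL2 p}
    (h : ∀ x : PSL2 p, g * x = x * g) : g = 1 := by
  obtain ⟨g, rfl⟩ := Z9_surj p g
  have h2 := Z9_two hp
  have h4 : (4 : ZMod p) ≠ 0 := by
    have : (4 : ZMod p) = 2 * 2 := by norm_num
    rw [this]
    exact mul_ne_zero h2 h2
  -- the commutation relation
  have key : ∀ x : SL2 p, x 0 0 + x 1 1 = 2 → g * x = x * g := by
    intro x hx
    have h3 : toPSL p (x * g) = toPSL p (g * x) := by
      rw [map_mul, map_mul]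
      exact (h _).symm
    obtain ⟨c, hc, hcx⟩ := Z9_eq h3
    obtain ⟨r, hr, hcr⟩ := Z9_center hc
    have hc00 : c 0 0 = r := by
      show (c : Matrix (Fin 2) (Fin 2) (ZMod p)) 0 0 = r
      rw [hcr]
      simp
    have hc01 : c 0 1 = 0 := by
      show (c : Matrix (Fin 2) (Fin 2) (ZMod p)) 0 1 = 0
      rw [hcr]
      simp
    have hc10 : c 1 0 = 0 := by
      show (c : Matrix (Fin 2) (Fin 2) (ZMod p)) 1 0 = 0
      rw [hcr]
      simp
    have hc11 : c 1 1 = r := by
      show (c : Matrix (Fin 2) (Fin 2) (ZMod p)) 1 1 = r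
      rw [hcr]
      simp
    have hr' : r = 1 ∨ r = -1 := by
      have : (r - 1) * (r + 1) = 0 := by linear_combination hr
      rcases mul_eq_zero.1 this with h5 | h5
      · left; linear_combination h5
      · right; linear_combination h5
    have e00 : (g * x) 0 0 = (x * g * c) 0 0 := by rw [hcx]
    have e01 : (g * x) 0 1 = (x * g * c) 0 1 := by rw [hcx]
    have e10 : (g * x) 1 0 = (x * g * c) 1 0 := by rw [hcx]
    have e11 : (g * x) 1 1 = (x * g * c) 1 1 := by rw [hcx]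
    rw [Z9_mul, Z9_mul (x * g), Z9_mul, Z9_mul, hc00, hc10] at e00
    rw [Z9_mul, Z9_mul (x * g), Z9_mul, Z9_mul, hc01, hc11] at e01
    rw [Z9_mul, Z9_mul (x * g), Z9_mul, Z9_mul, hc00, hc10] at e10
    rw [Z9_mul, Z9_mul (x * g), Z9_mul, Z9_mul, hc01, hc11] at e11
    rcases hr' with h5 | h5
    · have : c = 1 := by
        refine Z9_ext ?_ ?_ ?_ ?_
        · rw [hc00, h5]; simp
        · rw [hc01]; simp
        · rw [hc10]; simp
        · rw [hc11, h5]; simp
      rw [hcx, this, mul_one]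
    · exfalso
      subst h5
      have hd := Z9_det g
      apply h4
      -- `tr (g x g⁻¹) = tr x` and `g x g⁻¹ = -x`
      linear_combination (-2 : ZMod p) * hx + (g 1 1) * e00 - (g 1 0) * e01 - (g 0 1) * e10 +
        (g 0 0) * e11 - (x 0 0 + x 1 1) * 2 * hd - (-2 : ZMod p) * hx * 0
  have k1 := key (Z9_u 1) (by simp [Z9_u]; norm_num)
  have k2 := key (Z9_l 1) (by simp [Z9_l]; norm_num)
  have u00 : (Z9_u (1 : ZMod p)) 0 0 = 1 := rfl
  have u01 : (Z9_u (1 : ZMod p)) 0 1 = 1 := rfl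
  have u10 : (Z9_u (1 : ZMod p)) 1 0 = 0 := rfl
  have u11 : (Z9_u (1 : ZMod p)) 1 1 = 1 := rfl
  have l00 : (Z9_l (1 : ZMod p)) 0 0 = 1 := rfl
  have l01 : (Z9_l (1 : ZMod p)) 0 1 = 0 := rfl
  have l10 : (Z9_l (1 : ZMod p)) 1 0 = 1 := rfl
  have l11 : (Z9_l (1 : ZMod p)) 1 1 = 1 := rfl
  have a1 : (g * Z9_u 1 : SL2 p) 0 0 = (Z9_u 1 * g : SL2 p) 0 0 := by rw [k1]
  have a2 : (g * Z9_u 1 : SL2 p) 0 1 = (Z9_u 1 * g : SL2 p) 0 1 := by rw [k1]
  have a3 : (g * Z9_l 1 : SL2 p) 0 0 = (Z9_l 1 * g : SL2 p) 0 0 := by rw [k2]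
  rw [Z9_mul, Z9_mul, u00, u10, u01] at a1
  rw [Z9_mul, Z9_mul, u01, u11, u00] at a2
  rw [Z9_mul, Z9_mul, l00, l10, l01] at a3
  have b1 : g 1 0 = 0 := by linear_combination -a1
  have b2 : g 0 1 = 0 := by linear_combination a3
  have b3 : g 0 0 = g 1 1 := by linear_combination a2
  have hd := Z9_det g
  have hcen : g ∈ Subgroup.center (SL2 p) := by
    rw [Matrix.SpecialLinearGroup.mem_center_iff]
    refine ⟨g 0 0, ?_, ?_⟩
    · rw [Fintype.card_fin]
      linear_combination hd + g 0 0 * b3 + g 0 1 * b1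
    · ext i j
      fin_cases i <;> fin_cases j
      · simp
      · simpa using b2.symm
      · simpa using b1.symm
      · simpa using b3
  exact (QuotientGroup.eq_one_iff g).2 hcen

/-- PROOF: the kernel of `toPSL` has at most two elements (`!![c, 0; 0, c]`, `c² = 1`) and `|SL₂(p)| = p³ - p ≥ p³ / 2` (`card_SL2`, file P1, not imported; or count directly the elements with `a ≠ 0`: `(p - 1) p²`). -/
theorem card_psl {p : ℕ} [Fact p.Prime] (hp : 3 ≤ p) : (p : ℝ) ^ 3 ≤ 4 * Nat.card (PSL2 p) := by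
  classical
  -- the centre
  have h1 : Nat.card (Subgroup.center (SL2 p)) ≤ 2 := by
    have h2 : Nat.card (Subgroup.center (SL2 p)) ≤ Nat.card ({1, -1} : Set (ZMod p)) := by
      have : Finite ({1, -1} : Set (ZMod p)) := Set.Finite.to_subtype (Set.toFinite _)
      refine Nat.card_le_card_of_injective
        (fun c : Subgroup.center (SL2 p) => (⟨c.1 0 0, ?_⟩ : ({1, -1} : Set (ZMod p)))) ?_
      · obtain ⟨r, hr, hcr⟩ := Z9_center c.2
        have hc00 : c.1 0 0 = r := by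
          show (c.1 : Matrix (Fin 2) (Fin 2) (ZMod p)) 0 0 = r
          rw [hcr]
          simp
        rw [hc00]
        have : (r - 1) * (r + 1) = 0 := by linear_combination hr
        rcases mul_eq_zero.1 this with h5 | h5
        · left; linear_combination h5
        · right
          rw [Set.mem_singleton_iff]
          linear_combination h5
      · intro c c' hcc
        have h3 : c.1 0 0 = c'.1 0 0 := congrArg Subtype.val hcc
        obtain ⟨r, hr, hcr⟩ := Z9_center c.2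
        obtain ⟨r', hr', hcr'⟩ := Z9_center c'.2
        have e1 : c.1 0 0 = r := by
          show (c.1 : Matrix (Fin 2) (Fin 2) (ZMod p)) 0 0 = r
          rw [hcr]
          simp
        have e2 : c'.1 0 0 = r' := by
          show (c'.1 : Matrix (Fin 2) (Fin 2) (ZMod p)) 0 0 = r'
          rw [hcr']
          simp
        refine Subtype.ext (Subtype.ext ?_)
        rw [hcr, hcr', ← e1, ← e2, h3]
    refine h2.trans ?_
    show ({1, -1} : Set (ZMod p)).ncard ≤ 2
    exact (Set.ncard_insert_le _ _).trans (by rw [Set.ncard_singleton])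
  -- the number of elements of `SL₂(p)`
  have h2 : (p - 1) * (p * p) ≤ Nat.card (SL2 p) := by
    have h3 : Nat.card ((ZMod p)ˣ × ZMod p × ZMod p) = (p - 1) * (p * p) := by
      rw [Nat.card_prod, Nat.card_prod, Nat.card_zmod, Nat.card_eq_fintype_card,
        ZMod.card_units]
    rw [← h3]
    refine Nat.card_le_card_of_injective (fun x : (ZMod p)ˣ × ZMod p × ZMod p =>
      (⟨!![(x.1 : ZMod p), x.2.1; x.2.2, (1 + x.2.1 * x.2.2) * (x.1 : ZMod p)⁻¹], ?_⟩ : SL2 p)) ?_
    · rw [Matrix.det_fin_two_of]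
      have : (x.1 : ZMod p) ≠ 0 := x.1.ne_zero
      field_simp
      ring
    · intro x y hxy
      have e00 := congrArg (fun g : SL2 p => g 0 0) hxy
      have e01 := congrArg (fun g : SL2 p => g 0 1) hxy
      have e10 := congrArg (fun g : SL2 p => g 1 0) hxy
      exact Prod.ext (Units.ext e00) (Prod.ext e01 e10)
  have h3 : Nat.card (SL2 p) = Nat.card (PSL2 p) * Nat.card (Subgroup.center (SL2 p)) :=
    Subgroup.card_eq_card_quotient_mul_card_subgroup _
  have h4 : (p - 1) * (p * p) ≤ Nat.card (PSL2 p) * 2 := by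
    rw [h3] at h2
    exact h2.trans (Nat.mul_le_mul_left _ h1)
  have h5 : p ^ 3 ≤ 4 * Nat.card (PSL2 p) := by
    have h6 : p ≤ 2 * (p - 1) := by omega
    calc p ^ 3 = p * (p * p) := by ring
      _ ≤ 2 * (p - 1) * (p * p) := Nat.mul_le_mul_right _ h6
      _ = 2 * ((p - 1) * (p * p)) := by ring
      _ ≤ 2 * (Nat.card (PSL2 p) * 2) := Nat.mul_le_mul_left _ h4
      _ = 4 * Nat.card (PSL2 p) := by ring
  exact_mod_cast h5

end Pool.Agent.Lib.MP_3bb35d_al.UE
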