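import Pool.Agent.Lib.MP_3bb35d_al.UE.T0

/-!
# The choice of `w`
-/

set_option autoImplicit false
set_option linter.unusedVariables false

namespace Pool.Agent.Lib.MP_3bb35d_al.UE

/-- the numerical part: the entries are bounded from above and below -/
private theorem T3a_beta {Γ : Type*} [LinearOrderedCommGroupWithZero Γ] {B : Γ} (h : B ^ 2 = 1) :
    B = 1 := by
  rcases lt_trichotomy B 1 with h1 | h1 | h1
  · exact absurd h (pow_lt_one₀ zero_le h1 two_ne_zero).ne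
  · exact h1
  · exact absurd h (one_lt_pow₀ h1 two_ne_zero).ne'

private theorem T3a_c1 {Γ : Type*} [LinearOrderedCommGroupWithZero Γ] (M D : Γ) :
    M ^ 4 * (D * M * M) = M ^ 6 * D := by
  rw [mul_assoc D, ← sq, mul_comm D, ← mul_assoc, ← pow_add]

private theorem T3a_c2 {Γ : Type*} [LinearOrderedCommGroupWithZero Γ] (M D : Γ) :
    M ^ 4 * (D * M ^ 2 * M ^ 2) = M ^ 8 * D := by
  rw [mul_assoc D, ← pow_add, mul_comm D, ← mul_assoc, ← pow_add]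

private theorem T3a_c3 {Γ : Type*} [LinearOrderedCommGroupWithZero Γ] (M D : Γ) :
    D ^ 2 * M * M = (M ^ 1 * D) ^ 2 := by
  rw [mul_assoc, ← sq, mul_pow, pow_one, mul_comm]

private theorem T3a_c4 {Γ : Type*} [LinearOrderedCommGroupWithZero Γ] (M D : Γ) :
    D ^ 2 * M ^ 2 * M ^ 2 = (M ^ 2 * D) ^ 2 := by
  rw [mul_assoc, ← sq, mul_pow, mul_comm]

private theorem T3a_M {Γ : Type*} [LinearOrderedCommGroupWithZero Γ] {M X : Γ} (hM : 1 < M)
    {a b : ℕ} (hab : a ≤ b) : M ^ a * X ≤ M ^ b * X :=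
  mul_le_mul_left (pow_le_pow_right₀ hM.le hab) X

private theorem T3a_entries {K : Type*} [Field K] (h g : Matrix.SpecialLinearGroup (Fin 2) K)
    (h01 : h 0 1 = 0) (h10 : h 1 0 = 0) (hg : g 0 1 = g 1 0) :
    (g * h * g) 0 0 = g 0 0 ^ 2 * h 0 0 + g 0 1 ^ 2 * h 1 1 ∧
    (g * h * g) 0 1 = g 0 0 * g 0 1 * h 0 0 + g 0 1 * g 1 1 * h 1 1 ∧
    (g * h * g) 1 0 = g 0 0 * g 0 1 * h 0 0 + g 0 1 * g 1 1 * h 1 1 ∧
    (g * h * g) 1 1 = g 0 1 ^ 2 * h 0 0 + g 1 1 ^ 2 * h 1 1 := by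
  refine ⟨?_, ?_, ?_, ?_⟩ <;>
  simp only [Matrix.SpecialLinearGroup.coe_mul, Matrix.mul_apply, Fin.sum_univ_two, h01, h10,
    ← hg] <;> ring

private theorem T3a_sum {K Γ : Type*} [Field K] [LinearOrderedCommGroupWithZero Γ]
    (v : Valuation K Γ) {M : Γ} (hM : 1 < M) {x y : K} (hxy : v x < v y)
    (h1 : 1 ≤ M ^ 10 * v y) (h2 : v y ≤ M ^ 10) :
    1 ≤ M ^ 10 * v (x + y) ∧ v (x + y) ≤ M ^ 10 := by
  rw [Valuation.map_add_eq_of_lt_right v hxy]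
  exact ⟨h1, h2⟩

private theorem T3a_sum' {K Γ : Type*} [Field K] [LinearOrderedCommGroupWithZero Γ]
    (v : Valuation K Γ) {M : Γ} (hM : 1 < M) {x y : K} (hxy : v y < v x)
    (h1 : 1 ≤ M ^ 10 * v x) (h2 : v x ≤ M ^ 10) :
    1 ≤ M ^ 10 * v (x + y) ∧ v (x + y) ≤ M ^ 10 := by
  rw [Valuation.map_add_eq_of_lt_left v hxy]
  exact ⟨h1, h2⟩

/-- PROOF. `M = v s > 1`, `α = g₀₀`, `β = g₀₁ = g₁₀`, `δ = g₁₁`, `α δ - β² = 1`. `v β ^ 2 = v (α δ - 1) ≤ max (v α * v δ) 1 ≤ M`, so `v β ≤ M`.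
Case 1: `1 ≤ M ^ 10 v α` and `1 ≤ M ^ 10 v δ`: `j = 0`, `w = g`.
Case 2: `M ^ 10 v α < 1`. Then `v δ ≥ M⁻⁴` (as `v (α + δ) ≤ max (v α) (v δ)`), `v (α δ) < 1`, so `v β = 1`. `j = 1`, `w = g h² g = !![α² s² + β² s⁻², α β s² + β δ s⁻²; the same, β² s² + δ² s⁻²]`: `v (α² s²) < M⁻¹⁸`, `v (β² s⁻²) = M⁻²`, so `v w₀₀ = M⁻²`; `v (α β s²) < M⁻⁸`,
`v (β δ s⁻²) = v δ M⁻² ∈ [M⁻⁶, M⁻¹]`, so `v w₀₁ = v δ M⁻²`; `v (β² s²) = M²`, `v (δ² s⁻²) ≤ 1`, so `v w₁₁ = M²`.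
Case 3: `M ^ 10 v δ < 1`: then `v α ≥ M⁻⁴`, `v β = 1`, `j = 2`, `w = g h⁻¹ g = !![α² s⁻¹ + β² s, α β s⁻¹ + β δ s; the same, β² s⁻¹ + δ² s]`: valuations `M`; `v α M⁻¹ ∈ [M⁻⁵, M⁻¹]` (as `v (β δ s) < M⁻⁹`); `M⁻¹` (as `v (δ² s) < M⁻¹⁹`).
(`Valuation.map_add_eq_of_lt_left`, `zpow` or natural powers of `M`.) -/
theorem choice_w {K Γ : Type*} [Field K] [LinearOrderedCommGroupWithZero Γ] (v : Valuation K Γ)
    (h g : Matrix.SpecialLinearGroup (Fin 2) K) (s : K) (hs : 1 < v s)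
    (h00 : h 0 0 = s) (h01 : h 0 1 = 0) (h10 : h 1 0 = 0) (h11 : h 1 1 = s⁻¹)
    (hg : g 0 1 = g 1 0) (hα : v (g 0 0) ≤ 1) (hδ : v (g 1 1) ≤ v s)
    (hβ : 1 ≤ v s ^ 2 * v (g 0 1)) (ht : 1 ≤ v s ^ 4 * v (g 0 0 + g 1 1)) :
    ∃ j : Fin 3, (∀ i i', 1 ≤ v s ^ 10 * v ((wj j h g) i i')) ∧
      ∀ i i', v ((wj j h g) i i') ≤ v s ^ 10 := by
  generalize hM' : v s = M at *
  have hM0 : M ≠ 0 := (lt_trans zero_lt_one hs).ne'
  have hs0 : s ≠ 0 := fun h => by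
    rw [h, map_zero] at hM'
    exact hM0 hM'.symm
  have hdet : g 0 0 * g 1 1 - g 0 1 ^ 2 = 1 := by
    have h1 := g.det_coe
    rw [Matrix.det_fin_two] at h1
    rw [sq]
    nth_rewrite 2 [hg]
    exact h1
  have hMk : ∀ k : ℕ, 1 ≤ M ^ k := fun k => one_le_pow₀ hs.le
  have hB2 : v (g 0 1) ^ 2 ≤ M := by
    have h1 : g 0 1 ^ 2 = g 0 0 * g 1 1 - 1 := by linear_combination -hdet
    rw [← map_pow, h1]
    refine v.map_sub_le ?_ ?_
    · rw [map_mul]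
      calc v (g 0 0) * v (g 1 1) ≤ 1 * M := mul_le_mul' hα hδ
        _ = M := one_mul M
    · rw [map_one]
      exact hs.le
  have hBM : v (g 0 1) ≤ M := by
    rcases le_total (v (g 0 1)) 1 with h | h
    · exact h.trans hs.le
    · refine le_trans ?_ hB2
      rw [sq]
      exact le_mul_of_one_le_right' h
  by_cases c1 : 1 ≤ M ^ 10 * v (g 0 0)
  · by_cases c2 : 1 ≤ M ^ 10 * v (g 1 1)
    · -- case 1
      refine ⟨0, ?_⟩
      have hw : wj 0 h g = g := rfl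
      rw [hw]
      have hβ' : 1 ≤ M ^ 10 * v (g 0 1) := hβ.trans (T3a_M hs (by norm_num))
      have h1 : M ≤ M ^ 10 := by
        calc M = M ^ 1 := (pow_one M).symm
          _ ≤ M ^ 10 := pow_le_pow_right₀ hs.le (by norm_num)
      refine ⟨?_, ?_⟩
      · rw [Fin.forall_fin_two, Fin.forall_fin_two, Fin.forall_fin_two]
        exact ⟨⟨c1, hβ'⟩, hg ▸ hβ', c2⟩
      · rw [Fin.forall_fin_two, Fin.forall_fin_two, Fin.forall_fin_two]
        exact ⟨⟨hα.trans (hMk 10), hBM.trans h1⟩, hg ▸ hBM.trans h1, hδ.trans h1⟩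
    · -- case 3
      rw [not_le] at c2
      have hD4 : M ^ 4 * v (g 1 1) < 1 := lt_of_le_of_lt (T3a_M hs (by norm_num)) c2
      have hA4 : 1 ≤ M ^ 4 * v (g 0 0) := by
        rcases v.map_add' (g 0 0) (g 1 1) with h1 | h1
        · exact ht.trans (mul_le_mul_right h1 _)
        · exact absurd (ht.trans (mul_le_mul_right h1 _)) (not_le.2 hD4)
      have hAD : v (g 0 0 * g 1 1) < 1 := by
        rw [map_mul]
        calc v (g 0 0) * v (g 1 1) ≤ 1 * (M ^ 10 * v (g 1 1)) :=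
              mul_le_mul' hα (le_mul_of_one_le_left' (hMk 10))
          _ < 1 := by rw [one_mul]; exact c2
      have hB : v (g 0 1) = 1 := by
        refine T3a_beta ?_
        have h1 : g 0 1 ^ 2 = g 0 0 * g 1 1 - 1 := by linear_combination -hdet
        rw [← map_pow, h1, v.map_sub_eq_of_lt_right (by rw [map_one]; exact hAD), map_one]
      have hinv : (h⁻¹) 0 0 = s⁻¹ ∧ (h⁻¹) 0 1 = 0 ∧ (h⁻¹) 1 0 = 0 ∧ (h⁻¹) 1 1 = s := by
        rw [Matrix.SpecialLinearGroup.SL2_inv_expl]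
        refine ⟨h11, ?_, ?_, h00⟩
        · change -(h 0 1) = 0
          rw [h01, neg_zero]
        · change -(h 1 0) = 0
          rw [h10, neg_zero]
      obtain ⟨i1, i2, i3, i4⟩ := hinv
      obtain ⟨e1, e2, e3, e4⟩ := T3a_entries h⁻¹ g i2 i3 hg
      rw [i1, i4] at e1 e2 e3 e4
      refine ⟨2, ?_⟩
      have hw : wj 2 h g = g * h⁻¹ * g := rfl
      rw [hw]
      have k1 : 1 ≤ M ^ 10 * v ((g * h⁻¹ * g) 0 0) ∧ v ((g * h⁻¹ * g) 0 0) ≤ M ^ 10 := by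
        rw [e1]
        refine T3a_sum v hs ?_ ?_ ?_
        · rw [map_mul, map_mul, map_pow, map_pow, map_inv₀, hB, hM', one_pow, one_mul]
          calc v (g 0 0) ^ 2 * M⁻¹ ≤ 1 * 1 :=
                mul_le_mul' (pow_le_one₀ zero_le hα) (inv_le_one_of_one_le₀ hs.le)
            _ < M := by rw [one_mul]; exact hs
        · rw [map_mul, map_pow, hB, hM', one_pow, one_mul, ← pow_succ]
          exact hMk 11
        · rw [map_mul, map_pow, hB, hM', one_pow, one_mul]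
          calc M = M ^ 1 := (pow_one M).symm
            _ ≤ M ^ 10 := pow_le_pow_right₀ hs.le (by norm_num)
      have k2 : 1 ≤ M ^ 10 * v (g 0 0 * g 0 1 * s⁻¹ + g 0 1 * g 1 1 * s) ∧
          v (g 0 0 * g 0 1 * s⁻¹ + g 0 1 * g 1 1 * s) ≤ M ^ 10 := by
        refine T3a_sum' v hs ?_ ?_ ?_
        · rw [map_mul, map_mul, map_mul, map_mul, map_inv₀, hB, hM', one_mul, mul_one,
            lt_mul_inv_iff₀ (zero_lt_iff.2 hM0)]
          have h1 : M ^ 4 * (v (g 1 1) * M * M) < M ^ 4 * v (g 0 0) := by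
            calc M ^ 4 * (v (g 1 1) * M * M) = M ^ 6 * v (g 1 1) := T3a_c1 _ _
              _ ≤ M ^ 10 * v (g 1 1) := T3a_M hs (by norm_num)
              _ < 1 := c2
              _ ≤ _ := hA4
          exact lt_of_mul_lt_mul_left' h1
        · rw [map_mul, map_mul, map_inv₀, hB, hM', mul_one]
          calc 1 ≤ M ^ 4 * v (g 0 0) := hA4
            _ ≤ M ^ 9 * v (g 0 0) := T3a_M hs (by norm_num)
            _ = M ^ 10 * (v (g 0 0) * M⁻¹) := by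
              rw [pow_succ M 9, mul_assoc (M ^ 9), mul_left_comm M, mul_inv_cancel₀ hM0, mul_one]
        · rw [map_mul, map_mul, map_inv₀, hB, hM', mul_one]
          calc v (g 0 0) * M⁻¹ ≤ 1 * 1 := mul_le_mul' hα (inv_le_one_of_one_le₀ hs.le)
            _ ≤ M ^ 10 := by rw [one_mul]; exact hMk 10
      have k4 : 1 ≤ M ^ 10 * v ((g * h⁻¹ * g) 1 1) ∧ v ((g * h⁻¹ * g) 1 1) ≤ M ^ 10 := by
        rw [e4]
        refine T3a_sum' v hs ?_ ?_ ?_
        · rw [map_mul, map_mul, map_pow, map_pow, map_inv₀, hB, hM', one_pow, one_mul,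
            ← one_div, lt_div_iff₀ (zero_lt_iff.2 hM0)]
          calc v (g 1 1) ^ 2 * M * M = (M ^ 1 * v (g 1 1)) ^ 2 := T3a_c3 _ _
            _ ≤ (M ^ 10 * v (g 1 1)) ^ 2 := pow_le_pow_left' (T3a_M hs (by norm_num)) 2
            _ < 1 := pow_lt_one₀ zero_le c2 two_ne_zero
        · rw [map_mul, map_pow, map_inv₀, hB, hM', one_pow, one_mul, pow_succ, mul_assoc,
            mul_inv_cancel₀ hM0, mul_one]
          exact hMk 9
        · rw [map_mul, map_pow, map_inv₀, hB, hM', one_pow, one_mul]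
          exact (inv_le_one_of_one_le₀ hs.le).trans (hMk 10)
      rw [Fin.forall_fin_two, Fin.forall_fin_two, Fin.forall_fin_two, Fin.forall_fin_two,
        Fin.forall_fin_two, Fin.forall_fin_two, e2, e3]
      exact ⟨⟨⟨k1.1, k2.1⟩, k2.1, k4.1⟩, ⟨k1.2, k2.2⟩, k2.2, k4.2⟩
  · -- case 2
    rw [not_le] at c1
    have hA4 : M ^ 4 * v (g 0 0) < 1 := lt_of_le_of_lt (T3a_M hs (by norm_num)) c1
    have hD4 : 1 ≤ M ^ 4 * v (g 1 1) := by
      rcases v.map_add' (g 0 0) (g 1 1) with h1 | h1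
      · exact absurd (ht.trans (mul_le_mul_right h1 _)) (not_le.2 hA4)
      · exact ht.trans (mul_le_mul_right h1 _)
    have hAD : v (g 0 0 * g 1 1) < 1 := by
      rw [map_mul]
      calc v (g 0 0) * v (g 1 1) ≤ v (g 0 0) * M := mul_le_mul_right hδ _
        _ = M ^ 1 * v (g 0 0) := by rw [pow_one, mul_comm]
        _ ≤ M ^ 10 * v (g 0 0) := T3a_M hs (by norm_num)
        _ < 1 := c1
    have hB : v (g 0 1) = 1 := by
      refine T3a_beta ?_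
      have h1 : g 0 1 ^ 2 = g 0 0 * g 1 1 - 1 := by linear_combination -hdet
      rw [← map_pow, h1, v.map_sub_eq_of_lt_right (by rw [map_one]; exact hAD), map_one]
    have hsq : (h ^ 2) 0 0 = s ^ 2 ∧ (h ^ 2) 0 1 = 0 ∧ (h ^ 2) 1 0 = 0 ∧
        (h ^ 2) 1 1 = (s ^ 2)⁻¹ := by
      rw [sq h]
      refine ⟨?_, ?_, ?_, ?_⟩ <;>
      simp only [Matrix.SpecialLinearGroup.coe_mul, Matrix.mul_apply, Fin.sum_univ_two, h00, h01,
        h10, h11]
      · ring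
      · ring
      · ring
      · rw [zero_mul, zero_add, sq, mul_inv]
    obtain ⟨i1, i2, i3, i4⟩ := hsq
    obtain ⟨e1, e2, e3, e4⟩ := T3a_entries (h ^ 2) g i2 i3 hg
    rw [i1, i4] at e1 e2 e3 e4
    refine ⟨1, ?_⟩
    have hw : wj 1 h g = g * h ^ 2 * g := rfl
    rw [hw]
    have hM2 : M ^ 2 ≠ 0 := pow_ne_zero 2 hM0
    have hM2i : (M ^ 2)⁻¹ ≤ 1 := inv_le_one_of_one_le₀ (hMk 2)
    have k1 : 1 ≤ M ^ 10 * v ((g * h ^ 2 * g) 0 0) ∧ v ((g * h ^ 2 * g) 0 0) ≤ M ^ 10 := by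
      rw [e1]
      refine T3a_sum v hs ?_ ?_ ?_
      · rw [map_mul, map_mul, map_inv₀, map_pow, map_pow, map_pow, hB, hM', one_pow, one_mul,
          ← one_div, lt_div_iff₀ (zero_lt_iff.2 hM2)]
        calc v (g 0 0) ^ 2 * M ^ 2 * M ^ 2 = (M ^ 2 * v (g 0 0)) ^ 2 := T3a_c4 _ _
          _ ≤ (M ^ 10 * v (g 0 0)) ^ 2 := pow_le_pow_left' (T3a_M hs (by norm_num)) 2
          _ < 1 := pow_lt_one₀ zero_le c1 two_ne_zero
      · rw [map_mul, map_pow, map_inv₀, map_pow, hB, hM', one_pow, one_mul,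
          show (10 : ℕ) = 8 + 2 by norm_num, pow_add, mul_assoc, mul_inv_cancel₀ hM2, mul_one]
        exact hMk 8
      · rw [map_mul, map_pow, map_inv₀, map_pow, hB, hM', one_pow, one_mul]
        exact hM2i.trans (hMk 10)
    have k2 : 1 ≤ M ^ 10 * v (g 0 0 * g 0 1 * s ^ 2 + g 0 1 * g 1 1 * (s ^ 2)⁻¹) ∧
        v (g 0 0 * g 0 1 * s ^ 2 + g 0 1 * g 1 1 * (s ^ 2)⁻¹) ≤ M ^ 10 := by
      refine T3a_sum v hs ?_ ?_ ?_
      · rw [map_mul, map_mul, map_mul, map_mul, map_inv₀, map_pow, hB, hM', one_mul, mul_one,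
          lt_mul_inv_iff₀ (zero_lt_iff.2 hM2)]
        have h1 : M ^ 4 * (v (g 0 0) * M ^ 2 * M ^ 2) < M ^ 4 * v (g 1 1) := by
          calc M ^ 4 * (v (g 0 0) * M ^ 2 * M ^ 2) = M ^ 8 * v (g 0 0) := T3a_c2 _ _
            _ ≤ M ^ 10 * v (g 0 0) := T3a_M hs (by norm_num)
            _ < 1 := c1
            _ ≤ _ := hD4
        exact lt_of_mul_lt_mul_left' h1
      · rw [map_mul, map_mul, map_inv₀, map_pow, hB, hM', one_mul]
        calc 1 ≤ M ^ 4 * v (g 1 1) := hD4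
          _ ≤ M ^ 8 * v (g 1 1) := T3a_M hs (by norm_num)
          _ = M ^ 10 * (v (g 1 1) * (M ^ 2)⁻¹) := by
            rw [show (10 : ℕ) = 8 + 2 by norm_num, pow_add, mul_assoc (M ^ 8),
              mul_left_comm (M ^ 2), mul_inv_cancel₀ hM2, mul_one]
      · rw [map_mul, map_mul, map_inv₀, map_pow, hB, hM', one_mul]
        calc v (g 1 1) * (M ^ 2)⁻¹ ≤ M * 1 := mul_le_mul' hδ hM2i
          _ = M ^ 1 := by rw [mul_one, pow_one]
          _ ≤ M ^ 10 := pow_le_pow_right₀ hs.le (by norm_num)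
    have k4 : 1 ≤ M ^ 10 * v ((g * h ^ 2 * g) 1 1) ∧ v ((g * h ^ 2 * g) 1 1) ≤ M ^ 10 := by
      rw [e4]
      refine T3a_sum' v hs ?_ ?_ ?_
      · rw [map_mul, map_mul, map_inv₀, map_pow, map_pow, map_pow, hB, hM', one_pow, one_mul]
        calc v (g 1 1) ^ 2 * (M ^ 2)⁻¹ ≤ M ^ 2 * (M ^ 2)⁻¹ :=
              mul_le_mul_left (pow_le_pow_left' hδ 2) _
          _ = 1 := mul_inv_cancel₀ hM2
          _ < M ^ 2 := one_lt_pow₀ hs two_ne_zero
      · rw [map_mul, map_pow, map_pow, hB, hM', one_pow, one_mul, ← pow_add]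
        exact hMk _
      · rw [map_mul, map_pow, map_pow, hB, hM', one_pow, one_mul]
        exact pow_le_pow_right₀ hs.le (by norm_num)
    rw [Fin.forall_fin_two, Fin.forall_fin_two, Fin.forall_fin_two, Fin.forall_fin_two,
      Fin.forall_fin_two, Fin.forall_fin_two, e2, e3]
    exact ⟨⟨⟨k1.1, k2.1⟩, k2.1, k4.1⟩, ⟨k1.2, k2.2⟩, k2.2, k4.2⟩

end Pool.Agent.Lib.MP_3bb35d_al.UE
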