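import Pool.Agent.Lib.MP_3bb35d_al.Mg.G022

/-!
# The substitution `a ↦ X + Z ^ e`, `b ↦ Y + Z ^ (e ^ 2)`, `c ↦ Z`
-/

set_option autoImplicit false

open Polynomial

namespace Pool.Agent.Lib.MP_3bb35d_al.UE

private theorem C7b_alg {k : Type*} [Field k] (a : k) :
    algebraMap k (R3 k) a = C (C (C a)) := rfl

private theorem C7b_e3_C {k K : Type*} [Field k] [Field K] [Algebra k K] (x y z : K) (a : k) :
    e3 x y z (C (C (C a)) : R3 k) = algebraMap k K a := by
  simp [e3, e2, e1]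

private theorem C7b_e3_x {k K : Type*} [Field k] [Field K] [Algebra k K] (x y z : K) :
    e3 x y z (C (C X) : R3 k) = x := by
  simp [e3, e2, e1]

private theorem C7b_e3_y {k K : Type*} [Field k] [Field K] [Algebra k K] (x y z : K) :
    e3 x y z (C X : R3 k) = y := by
  simp [e3, e2]

private theorem C7b_e3_z {k K : Type*} [Field k] [Field K] [Algebra k K] (x y z : K) :
    e3 x y z (X : R3 k) = z := by
  simp [e3]

/-- PROOF: two algebra homomorphisms which agree on the variables. -/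
theorem e3_nag {k K : Type*} [Field k] [Field K] [Algebra k K] (e : ℕ) (x y z : K)
    (f : MvPolynomial (Fin 3) k) :
    e3 x y z (nag e f) = MvPolynomial.aeval ![x + z ^ e, y + z ^ (e ^ 2), z] f := by
  induction f using MvPolynomial.induction_on with
  | C a =>
    rw [MvPolynomial.aeval_C]
    unfold nag
    rw [MvPolynomial.aeval_C, C7b_alg, C7b_e3_C]
  | add p q hp hq => rw [map_add, map_add, map_add, hp, hq]
  | mul_X p i hp =>
    rw [map_mul, map_mul, map_mul, hp, MvPolynomial.aeval_X]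
    congr 1
    unfold nag
    rw [MvPolynomial.aeval_X]
    fin_cases i
    · show e3 x y z (C (C X) + X ^ e) = x + z ^ e
      rw [map_add, map_pow, C7b_e3_x, C7b_e3_z]
    · show e3 x y z (C X + X ^ (e ^ 2)) = y + z ^ (e ^ 2)
      rw [map_add, map_pow, C7b_e3_y, C7b_e3_z]
    · show e3 x y z X = z
      rw [C7b_e3_z]

private theorem C7b_Bd_mono {k : Type*} [Field k] {a b a' b' : ℕ} (ha : a ≤ a') (hb : b ≤ b')
    {q : Polynomial (Polynomial k)} (h : Bd a b q) : Bd a' b' q :=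
  ⟨h.1.trans hb, fun i => (h.2 i).trans ha⟩

private theorem C7b_Bd_zero {k : Type*} [Field k] (a b : ℕ) :
    Bd a b (0 : Polynomial (Polynomial k)) :=
  ⟨by simp, fun i => by simp⟩

private theorem C7b_Bd_add {k : Type*} [Field k] {a b : ℕ} {q q' : Polynomial (Polynomial k)}
    (h : Bd a b q) (h' : Bd a b q') : Bd a b (q + q') := by
  refine ⟨(natDegree_add_le _ _).trans (max_le h.1 h'.1), fun i => ?_⟩
  rw [coeff_add]
  exact (natDegree_add_le _ _).trans (max_le (h.2 i) (h'.2 i))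

private theorem C7b_Bd_sum {k : Type*} [Field k] {a b : ℕ} {ι : Type*} (s : Finset ι)
    {q : ι → Polynomial (Polynomial k)} (h : ∀ i ∈ s, Bd a b (q i)) : Bd a b (∑ i ∈ s, q i) := by
  classical
  induction s using Finset.induction_on with
  | empty => simpa using C7b_Bd_zero a b
  | insert i s hi ih =>
    rw [Finset.sum_insert hi]
    exact C7b_Bd_add (h i (Finset.mem_insert_self i s))
      (ih fun j hj => h j (Finset.mem_insert_of_mem hj))

private theorem C7b_Bd_mul {k : Type*} [Field k] {a b a' b' : ℕ}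
    {q q' : Polynomial (Polynomial k)}
    (h : Bd a b q) (h' : Bd a' b' q') : Bd (a + a') (b + b') (q * q') := by
  refine ⟨natDegree_mul_le.trans (Nat.add_le_add h.1 h'.1), fun i => ?_⟩
  rw [coeff_mul]
  refine natDegree_sum_le_of_forall_le _ _ fun p _ => ?_
  exact natDegree_mul_le.trans (Nat.add_le_add (h.2 _) (h'.2 _))

private theorem C7b_Bd3_mono {k : Type*} [Field k] {a b c a' b' c' : ℕ} (ha : a ≤ a')
    (hb : b ≤ b') (hc : c ≤ c') {f : R3 k} (h : Bd3 a b c f) : Bd3 a' b' c' f :=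
  ⟨h.1.trans hc, fun i => C7b_Bd_mono ha hb (h.2 i)⟩

private theorem C7b_Bd3_zero {k : Type*} [Field k] (a b c : ℕ) : Bd3 a b c (0 : R3 k) :=
  ⟨by simp, fun i => by simpa using C7b_Bd_zero a b⟩

private theorem C7b_Bd3_add {k : Type*} [Field k] {a b c : ℕ} {f f' : R3 k}
    (h : Bd3 a b c f) (h' : Bd3 a b c f') : Bd3 a b c (f + f') := by
  refine ⟨(natDegree_add_le _ _).trans (max_le h.1 h'.1), fun i => ?_⟩
  rw [coeff_add]
  exact C7b_Bd_add (h.2 i) (h'.2 i)

private theorem C7b_Bd3_sum {k : Type*} [Field k] {a b c : ℕ} {ι : Type*} (s : Finset ι)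
    {f : ι → R3 k} (h : ∀ i ∈ s, Bd3 a b c (f i)) : Bd3 a b c (∑ i ∈ s, f i) := by
  classical
  induction s using Finset.induction_on with
  | empty => simpa using C7b_Bd3_zero a b c
  | insert i s hi ih =>
    rw [Finset.sum_insert hi]
    exact C7b_Bd3_add (h i (Finset.mem_insert_self i s))
      (ih fun j hj => h j (Finset.mem_insert_of_mem hj))

private theorem C7b_Bd3_mul {k : Type*} [Field k] {a b c a' b' c' : ℕ} {f f' : R3 k}
    (h : Bd3 a b c f) (h' : Bd3 a' b' c' f') : Bd3 (a + a') (b + b') (c + c') (f * f') := by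
  refine ⟨natDegree_mul_le.trans (Nat.add_le_add h.1 h'.1), fun i => ?_⟩
  rw [coeff_mul]
  exact C7b_Bd_sum _ fun p _ => C7b_Bd_mul (h.2 _) (h'.2 _)

private theorem C7b_Bd_C {k : Type*} [Field k] {a : ℕ} {p : Polynomial k} (hp : p.natDegree ≤ a) :
    Bd a 0 (C p) := by
  refine ⟨by simp, fun i => ?_⟩
  rw [coeff_C]
  split_ifs
  · exact hp
  · simp

private theorem C7b_Bd3_C {k : Type*} [Field k] {a b : ℕ} {q : Polynomial (Polynomial k)}
    (hq : Bd a b q) : Bd3 a b 0 (C q) := by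
  refine ⟨by simp, fun i => ?_⟩
  rw [coeff_C]
  split_ifs
  · exact hq
  · exact C7b_Bd_zero a b

private theorem C7b_Bd_X {k : Type*} [Field k] : Bd 0 1 (X : Polynomial (Polynomial k)) := by
  refine ⟨by simp, fun i => ?_⟩
  rw [coeff_X]
  split_ifs <;> simp

private theorem C7b_Bd3_Xpow {k : Type*} [Field k] (e : ℕ) : Bd3 0 0 e (X ^ e : R3 k) := by
  refine ⟨by simp, fun i => ?_⟩
  rw [coeff_X_pow]
  split_ifs
  · rw [← C_1]
    exact C7b_Bd_C (by simp)
  · exact C7b_Bd_zero 0 0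

private theorem C7b_Bd3_const {k : Type*} [Field k] (a : k) : Bd3 0 0 0 (C (C (C a)) : R3 k) :=
  C7b_Bd3_C (C7b_Bd_C (by simp))

private theorem C7b_Bd3_pow {k : Type*} [Field k] {a b c : ℕ} {f : R3 k}
    (h : Bd3 a b c f) (i : ℕ) : Bd3 (i * a) (i * b) (i * c) (f ^ i) := by
  induction i with
  | zero =>
    rw [pow_zero]
    have h1 := C7b_Bd3_const (1 : k)
    rw [C_1, C_1, C_1] at h1
    exact C7b_Bd3_mono (by omega) (by omega) (by omega) h1
  | succ i ih =>
    rw [pow_succ]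
    exact C7b_Bd3_mono (by ring_nf; exact le_rfl) (by ring_nf; exact le_rfl)
      (by ring_nf; exact le_rfl) (C7b_Bd3_mul ih h)

private theorem C7b_nag_eq {k : Type*} [Field k] (e : ℕ) (f : MvPolynomial (Fin 3) k) :
    nag e f = ∑ m ∈ f.support, C (C (C (f.coeff m))) *
      ((C (C X) + X ^ e) ^ (m 0) * (C X + X ^ (e ^ 2)) ^ (m 1) * X ^ (m 2)) := by
  unfold nag
  rw [MvPolynomial.aeval_def, MvPolynomial.eval₂_eq']
  refine Finset.sum_congr rfl fun m _ => ?_
  rw [C7b_alg, Fin.prod_univ_three]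
  rfl

private theorem C7b_deg {k : Type*} [Field k] {d : ℕ} {f : MvPolynomial (Fin 3) k}
    (hf : f.totalDegree ≤ d) {m : Fin 3 →₀ ℕ} (hm : m ∈ f.support) : m 0 + m 1 + m 2 ≤ d := by
  have h1 := MvPolynomial.le_totalDegree hm
  have h2 : m.sum (fun _ e => e) = m 0 + m 1 + m 2 := by
    rw [Finsupp.sum_fintype _ _ (fun _ => rfl), Fin.sum_univ_three]
  omega

/-- PROOF: a monomial `a ^ i b ^ j c ^ l`, `i + j + l ≤ d`, is mapped to a product whose degrees in `X, Y, Z` are at most `i`, `j`, `e i + e² j + l ≤ e² d`; `Bd3` is closed under sums. -/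
theorem Bd3_nag {k : Type*} [Field k] {d e : ℕ} (he : 1 ≤ e) {f : MvPolynomial (Fin 3) k}
    (hf : f.totalDegree ≤ d) : Bd3 d d (d * e ^ 2) (nag e f) := by
  rw [C7b_nag_eq]
  refine C7b_Bd3_sum _ fun m hm => ?_
  have hd := C7b_deg hf hm
  have b1 : Bd3 1 0 e (C (C X) + X ^ e : R3 k) :=
    C7b_Bd3_add (C7b_Bd3_mono le_rfl le_rfl (Nat.zero_le _) (C7b_Bd3_C (C7b_Bd_C (by simp))))
      (C7b_Bd3_mono (Nat.zero_le _) le_rfl le_rfl (C7b_Bd3_Xpow e))
  have b2 : Bd3 0 1 (e ^ 2) (C X + X ^ (e ^ 2) : R3 k) :=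
    C7b_Bd3_add (C7b_Bd3_mono le_rfl le_rfl (Nat.zero_le _) (C7b_Bd3_C C7b_Bd_X))
      (C7b_Bd3_mono le_rfl (Nat.zero_le _) le_rfl (C7b_Bd3_Xpow (e ^ 2)))
  have b3 := C7b_Bd3_mul (C7b_Bd3_const (f.coeff m)) (C7b_Bd3_mul (C7b_Bd3_mul
    (C7b_Bd3_pow b1 (m 0)) (C7b_Bd3_pow b2 (m 1))) (C7b_Bd3_Xpow (k := k) (m 2)))
  refine C7b_Bd3_mono ?_ ?_ ?_ b3
  · omega
  · omega
  · have h1 : e ≤ e ^ 2 := by nlinarith
    have h2 : 1 ≤ e ^ 2 := by nlinarith
    have h3 : m 0 * e ≤ m 0 * e ^ 2 := Nat.mul_le_mul_left _ h1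
    have h4 : m 2 ≤ m 2 * e ^ 2 := Nat.le_mul_of_pos_right _ h2
    have h5 : (m 0 + m 1 + m 2) * e ^ 2 ≤ d * e ^ 2 := Nat.mul_le_mul_right _ hd
    nlinarith

/-- PROOF: the image of the monomial `a ^ i b ^ j c ^ l` is monic in `Z` of degree `e i + e² j + l`, with `i, j, l < e` these numbers are different: `leadingCoeff_sum` with `B = k[X][Y]` and the support of `f` as index set. -/
theorem nagata2 {k : Type*} [Field k] {e : ℕ} {f : MvPolynomial (Fin 3) k}
    (hf : f ≠ 0) (he : f.totalDegree < e) :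
    ∃ c : k, c ≠ 0 ∧ (C (C (C c)) * nag e f).Monic := by
  have he0 : e ≠ 0 := by omega
  have he2 : e ^ 2 ≠ 0 := pow_ne_zero 2 he0
  have m1 : (C (C X) + X ^ e : R3 k).Monic := by
    rw [add_comm]
    exact monic_X_pow_add_C _ he0
  have d1 : (C (C X) + X ^ e : R3 k).natDegree = e := by
    rw [add_comm]
    exact natDegree_X_pow_add_C
  have m2 : (C X + X ^ (e ^ 2) : R3 k).Monic := by
    rw [add_comm]
    exact monic_X_pow_add_C _ he2
  have d2 : (C X + X ^ (e ^ 2) : R3 k).natDegree = e ^ 2 := by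
    rw [add_comm]
    exact natDegree_X_pow_add_C
  obtain ⟨m, hm, hcm, hlead⟩ := leadingCoeff_sum (k := k) (B := Polynomial (Polynomial k)) f.support
    (fun m => f.coeff m)
    (fun m => (C (C X) + X ^ e) ^ (m 0) * (C X + X ^ (e ^ 2)) ^ (m 1) * X ^ (m 2))
    (fun m => m 0 * e + m 1 * e ^ 2 + m 2) (by
      intro m _
      have h1 := m1.pow (m 0)
      have h2 := m2.pow (m 1)
      have h3 : (X ^ (m 2) : R3 k).Monic := monic_X_pow (m 2)
      refine ⟨(h1.mul h2).mul h3, ?_⟩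
      rw [(h1.mul h2).natDegree_mul h3, h1.natDegree_mul h2, m1.natDegree_pow, m2.natDegree_pow,
        natDegree_X_pow, d1, d2]) (by
      intro m hm m' hm' h
      have hd := C7b_deg (le_refl f.totalDegree) (Finset.mem_coe.1 hm)
      have hd' := C7b_deg (le_refl f.totalDegree) (Finset.mem_coe.1 hm')
      simp only at h
      have a0 : m 0 < e := by omega
      have a1 : m 1 < e := by omega
      have a2 : m 2 < e := by omega
      have a0' : m' 0 < e := by omega
      have a1' : m' 1 < e := by omega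
      have a2' : m' 2 < e := by omega
      have e1 : m 0 * e + m 1 * e ^ 2 + m 2 = m 2 + e * (m 0 + e * m 1) := by ring
      have e2 : m' 0 * e + m' 1 * e ^ 2 + m' 2 = m' 2 + e * (m' 0 + e * m' 1) := by ring
      rw [e1, e2] at h
      have h2 : m 2 = m' 2 := by
        have := congrArg (fun t => t % e) h
        simp only [Nat.add_mul_mod_self_left] at this
        rwa [Nat.mod_eq_of_lt a2, Nat.mod_eq_of_lt a2'] at this
      have h3 : m 0 + e * m 1 = m' 0 + e * m' 1 := by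
        rw [h2] at h
        exact Nat.eq_of_mul_eq_mul_left (Nat.pos_of_ne_zero he0) (Nat.add_left_cancel h)
      have h0 : m 0 = m' 0 := by
        have := congrArg (fun t => t % e) h3
        simp only [Nat.add_mul_mod_self_left] at this
        rwa [Nat.mod_eq_of_lt a0, Nat.mod_eq_of_lt a0'] at this
      have h1 : m 1 = m' 1 := by
        rw [h0] at h3
        exact Nat.eq_of_mul_eq_mul_left (Nat.pos_of_ne_zero he0) (Nat.add_left_cancel h3)
      ext i
      fin_cases i
      · exact h0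
      · exact h1
      · exact h2) (by
      obtain ⟨m, hm⟩ := MvPolynomial.support_nonempty.2 hf
      exact ⟨m, hm, MvPolynomial.mem_support_iff.1 hm⟩)
  have hnag : (∑ i ∈ f.support, C (algebraMap k (Polynomial (Polynomial k)) (f.coeff i)) *
      ((C (C X) + X ^ e) ^ (i 0) * (C X + X ^ (e ^ 2)) ^ (i 1) * X ^ (i 2))) = nag e f := by
    rw [C7b_nag_eq]
    rfl
  rw [hnag] at hlead
  refine ⟨(f.coeff m)⁻¹, inv_ne_zero hcm, ?_⟩
  unfold Monic
  rw [leadingCoeff_mul, leadingCoeff_C, hlead]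
  show C (C (f.coeff m)⁻¹) * C (C (f.coeff m)) = 1
  rw [← C_mul, ← C_mul, inv_mul_cancel₀ hcm, C_1, C_1]

/-- PROOF: `e3_nag`; if `x, y, z` has a transcendental coordinate then so has `x + z ^ e, y + z ^ (e ^ 2), z`. -/
theorem Hyp_nag {k : Type} [Field k] {Ω : Type} [Fintype Ω] {m : ℕ}
    (fam : Ω → Fin m → MvPolynomial (Fin 3) k) (Φ : MvPolynomial (Fin 3) k) {θ : ℝ}
    (H : ∀ (K : Type) [Field K] [IsAlgClosed K] [Algebra k K] (P : Fin 3 → K),
      (∃ i, Transcendental k (P i)) → MvPolynomial.aeval P Φ ≠ 0 →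
      ({ω : Ω | ∀ j, MvPolynomial.aeval P (fam ω j) = 0}.ncard : ℝ) ≤ θ * Fintype.card Ω)
    (e : ℕ) : Hyp (fun ω j => nag e (fam ω j)) (nag e Φ) θ := by
  intro K _ _ _ x y z ht hΦ
  rw [e3_nag] at hΦ
  have h := H K ![x + z ^ e, y + z ^ (e ^ 2), z] (by
    by_contra hcon
    push Not at hcon
    have hz : IsAlgebraic k z := by
      by_contra h0
      exact hcon 2 h0
    have h0 : IsAlgebraic k (x + z ^ e) := by
      by_contra h0
      exact hcon 0 h0
    have h1 : IsAlgebraic k (y + z ^ (e ^ 2)) := by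
      by_contra h0
      exact hcon 1 h0
    have hx : IsAlgebraic k x := by
      have := h0.sub (hz.pow e)
      rwa [add_sub_cancel_right] at this
    have hy : IsAlgebraic k y := by
      have := h1.sub (hz.pow (e ^ 2))
      rwa [add_sub_cancel_right] at this
    rcases ht with ht | ht | ht
    · exact ht hx
    · exact ht hy
    · exact ht hz) hΦ
  simp only [e3_nag]
  exact h

end Pool.Agent.Lib.MP_3bb35d_al.UE
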