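import Mathlib

/-!
# Definitions for the statement: Cayley graphs, expanders, the groups `PSL₂(p)`
-/

set_option autoImplicit false

namespace Pool.Agent.Lib.MP_3bb35d_al.UE

/-- The edge boundary of `A` in the Cayley graph `Cay(G, S)` (edges `{g, g s}`, `g ∈ G`, `s ∈ S ∪ S⁻¹`): the pairs
`(g, h)` with `g ∈ A`, `h ∉ A` such that `{g, h}` is an edge. -/
def bdry {G : Type*} [Group G] (S A : Set G) : Set (G × G) :=
  {e | e.1 ∈ A ∧ e.2 ∉ A ∧ ∃ s ∈ S, e.2 = e.1 * s ∨ e.1 = e.2 * s}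

/-- `Cay(G, S)` is an `ε`-expander: `|∂A| ≥ ε |A|` for every `A ⊆ G` with `|A| ≤ |G| / 2`. -/
def IsExpander {G : Type*} [Group G] (ε : ℝ) (S : Set G) : Prop :=
  ∀ A : Set G, 2 * A.ncard ≤ Nat.card G → ε * A.ncard ≤ (bdry S A).ncard

/-- The group `SL₂(p)`. -/
abbrev SL2 (p : ℕ) : Type := Matrix.SpecialLinearGroup (Fin 2) (ZMod p)

/-- The group `PSL₂(p)`. -/
abbrev PSL2 (p : ℕ) : Type := Matrix.ProjectiveSpecialLinearGroup (Fin 2) (ZMod p)

end Pool.Agent.Lib.MP_3bb35d_al.UE
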