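import Pool.Agent.Lib.MP_3bb35d_al.Mg.G028
import Pool.Agent.Lib.MP_3bb35d_al.UE.Z9
import Pool.Agent.Lib.MP_3bb35d_al.Mg.G016

/-!
# Uniform expansion of `PSL₂(p)`
-/

set_option autoImplicit false

namespace Pool.Agent.Lib.MP_3bb35d_al.UE

private theorem Z10b_conj {G : Type*} [Group G] {k : ℕ} {ε : ℝ} (S : Fin k → G) (g : G)
    (h : Subgroup.closure (Set.range S) = ⊤ ∧ ¬ IsExpander ε (Set.range S)) :
    Subgroup.closure (Set.range fun i => g * S i * g⁻¹) = ⊤ ∧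
      ¬ IsExpander ε (Set.range fun i => g * S i * g⁻¹) := by
  have e1 : (Set.range fun i => g * S i * g⁻¹) = (MulAut.conj g) '' Set.range S := by
    rw [← Set.range_comp]
    rfl
  have e2 : Set.range S = (MulAut.conj g⁻¹) '' (Set.range fun i => g * S i * g⁻¹) := by
    rw [← Set.range_comp]
    congr 1
    funext i
    simp [mul_assoc]
  constructor
  · rw [e1]
    have h1 := MonoidHom.map_closure (MulAut.conj g).toMonoidHom (Set.range S)
    rw [h.1] at h1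
    have h2 : Subgroup.map (MulAut.conj g).toMonoidHom ⊤ = ⊤ :=
      Subgroup.map_top_of_surjective _ (MulAut.conj g).surjective
    rw [h2] at h1
    exact h1.symm
  · intro h1
    apply h.2
    rw [e2]
    exact h1.equiv (MulAut.conj g⁻¹)

private theorem Z10b_nontrivial {p : ℕ} [Fact p.Prime] : Nontrivial (PSL2 p) := by
  by_contra h
  rw [not_nontrivial_iff_subsingleton] at h
  let u : SL2 p := ⟨!![1, 1; 0, 1], by simp [Matrix.det_fin_two_of]⟩
  let v : SL2 p := ⟨!![1, 0; 1, 1], by simp [Matrix.det_fin_two_of]⟩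
  have h1 : (QuotientGroup.mk' (Subgroup.center (SL2 p))) u = 1 := Subsingleton.elim _ _
  rw [QuotientGroup.mk'_apply, QuotientGroup.eq_one_iff, Subgroup.mem_center_iff] at h1
  have h2 := congrArg (fun m : SL2 p => (m : Matrix (Fin 2) (Fin 2) (ZMod p)) 0 0) (h1 v)
  simp only [Matrix.SpecialLinearGroup.coe_mul, Matrix.mul_apply, Fin.sum_univ_two] at h2
  simp [u, v] at h2

private theorem Z10b_card {p : ℕ} [Fact p.Prime] : Nat.card (PSL2 p) ≤ p ^ 4 := by
  have h1 : Nat.card (PSL2 p) ≤ Nat.card (SL2 p) :=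
    Nat.card_le_card_of_surjective _ (QuotientGroup.mk'_surjective (Subgroup.center (SL2 p)))
  have h2 : Nat.card (SL2 p) ≤ Nat.card (Matrix (Fin 2) (Fin 2) (ZMod p)) :=
    Nat.card_le_card_of_injective (fun m : SL2 p => (m : Matrix (Fin 2) (Fin 2) (ZMod p)))
      Subtype.val_injective
  have h3 : Nat.card (Matrix (Fin 2) (Fin 2) (ZMod p)) = p ^ 4 := by
    have : Nat.card (Matrix (Fin 2) (Fin 2) (ZMod p)) = Nat.card (Fin 2 → Fin 2 → ZMod p) := rfl
    rw [this, Nat.card_fun, Nat.card_fun, Nat.card_zmod, Nat.card_fin, ← pow_mul]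
  omega

/-- Large primes. PROOF. `k ≥ 1`. `sl2_large` with `δ / 2`: `ε₁`, `p0`. `ε = ε₁ / (2 k)`. `card_psl_le`: the number of the failing tuples is at most `p ^ (3 + δ / 2) ≤ p ^ (3 + δ)`. `reps` for the set `B` of the failing tuples (closed under conjugation: `IsExpander.equiv` for the inner automorphisms `MulAut.conj`; `psl_center`):
`#T * |PSL₂(p)| ≤ p ^ (3 + δ / 2)`, so by `card_psl` `#T ≤ 4 p ^ (δ / 2) ≤ p ^ δ` for large `p`. `φ` = an inner automorphism. -/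
theorem psl_large (k : ℕ) (hk : 1 ≤ k) (δ : ℝ) (hδ : 0 < δ) : ∃ ε : ℝ, 0 < ε ∧ ∃ p0 : ℕ, ∀ p : ℕ,
    ∀ _ : Fact p.Prime, p0 ≤ p →
      ({S : Fin k → PSL2 p | Subgroup.closure (Set.range S) = ⊤ ∧
        ¬ IsExpander ε (Set.range S)}.ncard : ℝ) ≤ (p : ℝ) ^ (3 + δ) ∧
      ∃ T : Finset (Fin k → PSL2 p), (T.card : ℝ) ≤ (p : ℝ) ^ δ ∧
        ∀ S : Fin k → PSL2 p, Subgroup.closure (Set.range S) = ⊤ →
          ¬ IsExpander ε (Set.range S) →
          ∃ φ : PSL2 p ≃* PSL2 p, ∃ S' ∈ T, S' = fun i => φ (S i) := by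
  obtain ⟨ε₁, hε₁, p0, hp0⟩ := sl2_large k (δ / 2) (by positivity)
  have hlim : ∀ᶠ p : ℕ in Filter.atTop, (4 : ℝ) ≤ (p : ℝ) ^ (δ / 2) :=
    ((tendsto_rpow_atTop (by positivity : 0 < δ / 2)).comp
      tendsto_natCast_atTop_atTop).eventually_ge_atTop 4
  obtain ⟨p1, hp1⟩ := Filter.eventually_atTop.1 hlim
  refine ⟨ε₁ / (2 * k), by positivity, max p0 (max p1 3), fun p hp hle => ?_⟩
  have hle0 : p0 ≤ p := (le_max_left _ _).trans hle
  have hle1 : p1 ≤ p := ((le_max_left _ _).trans (le_max_right _ _)).trans hle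
  have hle3 : 3 ≤ p := ((le_max_right _ _).trans (le_max_right _ _)).trans hle
  have hpos : (0 : ℝ) < p := by exact_mod_cast hp.out.pos
  have hp1' : (1 : ℝ) ≤ p := by exact_mod_cast hp.out.one_le
  set B : Set (Fin k → PSL2 p) := {S : Fin k → PSL2 p | Subgroup.closure (Set.range S) = ⊤ ∧
        ¬ IsExpander (ε₁ / (2 * k)) (Set.range S)} with hB
  have hBc : (B.ncard : ℝ) ≤ (p : ℝ) ^ (3 + δ / 2) := by
    exact le_trans (Nat.cast_le.2 (card_psl_le hle3 hk hε₁.le)) (hp0 p hp hle0)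
  refine ⟨hBc.trans (Real.rpow_le_rpow_of_exponent_le hp1' (by linarith)), ?_⟩
  obtain ⟨T, hT, hrep⟩ := reps B (fun S hS g => Z10b_conj S g hS) (fun S hS => hS.1)
    (fun g hg => psl_center hle3 hg)
  refine ⟨T, ?_, ?_⟩
  · have h1 : (T.card : ℝ) * Nat.card (PSL2 p) ≤ (p : ℝ) ^ (3 + δ / 2) :=
      le_trans (by exact_mod_cast hT) hBc
    have h2 := card_psl (p := p) hle3
    have h3 : (p : ℝ) ^ (3 + δ / 2) = (p : ℝ) ^ 3 * (p : ℝ) ^ (δ / 2) := by
      rw [Real.rpow_add hpos]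
      norm_cast
    have h4 : (p : ℝ) ^ δ = (p : ℝ) ^ (δ / 2) * (p : ℝ) ^ (δ / 2) := by
      rw [← Real.rpow_add hpos]
      congr 1
      ring
    have h5 := hp1 p hle1
    have h6 : (0 : ℝ) < (p : ℝ) ^ 3 := by positivity
    have h7 : (T.card : ℝ) * (p : ℝ) ^ 3 ≤ ((p : ℝ) ^ δ) * (p : ℝ) ^ 3 := by
      calc (T.card : ℝ) * (p : ℝ) ^ 3 ≤ T.card * (4 * Nat.card (PSL2 p)) :=
            mul_le_mul_of_nonneg_left h2 (Nat.cast_nonneg _)
        _ = 4 * (T.card * Nat.card (PSL2 p)) := by ring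
        _ ≤ 4 * ((p : ℝ) ^ 3 * (p : ℝ) ^ (δ / 2)) := by
            rw [← h3]
            exact mul_le_mul_of_nonneg_left h1 (by norm_num)
        _ ≤ (p : ℝ) ^ (δ / 2) * ((p : ℝ) ^ 3 * (p : ℝ) ^ (δ / 2)) :=
            mul_le_mul_of_nonneg_right h5 (by positivity)
        _ = (p : ℝ) ^ δ * (p : ℝ) ^ 3 := by
            rw [h4]
            ring
    exact le_of_mul_le_mul_right h7 h6
  · intro S h1 h2
    obtain ⟨g, hg⟩ := hrep S ⟨h1, h2⟩
    exact ⟨MulAut.conj g, _, hg, rfl⟩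

/-- All primes. PROOF. `k = 0`: `Set.range S = ∅` does not generate `PSL₂(p)`, which is not trivial; everything is vacuous, `T = ∅`. `k ≥ 1`: `psl_large`: `ε₁`, `p0`; for `p < p0`: `|PSL₂(p)| ≤ |SL₂(p)| ≤ p ^ 4 ≤ p0 ^ 4`, and by `expander_small` all generating tuples are `1 / (p0 + 1) ^ 4`-expanders. `ε = min ε₁ (1 / (p0 + 1) ^ 4)`; failing for
`ε` implies failing for `ε₁` (`IsExpander.mono`). -/
theorem uniform_expansion (k : ℕ) (δ : ℝ) (hδ : 0 < δ) : ∃ ε : ℝ, 0 < ε ∧ ∀ p : ℕ, p.Prime →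
      ({S : Fin k → PSL2 p | Subgroup.closure (Set.range S) = ⊤ ∧
        ¬ IsExpander ε (Set.range S)}.ncard : ℝ) ≤ (p : ℝ) ^ (3 + δ) ∧
      ∃ T : Finset (Fin k → PSL2 p), (T.card : ℝ) ≤ (p : ℝ) ^ δ ∧
        ∀ S : Fin k → PSL2 p, Subgroup.closure (Set.range S) = ⊤ →
          ¬ IsExpander ε (Set.range S) →
          ∃ φ : PSL2 p ≃* PSL2 p, ∃ S' ∈ T, S' = fun i => φ (S i) := by
  rcases Nat.eq_zero_or_pos k with hk | hk
  · subst hk
    refine ⟨1, one_pos, fun p hp => ?_⟩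
    have : Fact p.Prime := ⟨hp⟩
    have hne : ∀ S : Fin 0 → PSL2 p, Subgroup.closure (Set.range S) ≠ ⊤ := by
      intro S h
      have := Z10b_nontrivial (p := p)
      rw [Set.range_eq_empty, Subgroup.closure_empty] at h
      exact bot_ne_top h
    constructor
    · have e : {S : Fin 0 → PSL2 p | Subgroup.closure (Set.range S) = ⊤ ∧
          ¬ IsExpander 1 (Set.range S)} = ∅ := by
        rw [Set.eq_empty_iff_forall_notMem]
        exact fun S hS => hne S hS.1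
      rw [e, Set.ncard_empty, Nat.cast_zero]
      positivity
    · refine ⟨∅, ?_, fun S h1 _ => absurd h1 (hne S)⟩
      rw [Finset.card_empty, Nat.cast_zero]
      positivity
  obtain ⟨ε₁, hε₁, p0, hp0⟩ := psl_large k hk δ hδ
  have hpp : (0 : ℝ) < 1 / ((p0 : ℝ) + 1) ^ 4 := by positivity
  refine ⟨min ε₁ (1 / ((p0 : ℝ) + 1) ^ 4), lt_min hε₁ hpp, fun p hp => ?_⟩
  have hfact : Fact p.Prime := ⟨hp⟩
  have hfin : Fintype (PSL2 p) := Fintype.ofFinite _
  rcases Nat.lt_or_ge p p0 with hlt | hge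
  · have hne : ∀ S : Fin k → PSL2 p, Subgroup.closure (Set.range S) = ⊤ →
        IsExpander (min ε₁ (1 / ((p0 : ℝ) + 1) ^ 4)) (Set.range S) := by
      intro S h
      refine (expander_small _ h).mono ((min_le_right _ _).trans ?_)
      have h1 : (0 : ℝ) < Nat.card (PSL2 p) := by exact_mod_cast Nat.card_pos
      refine one_div_le_one_div_of_le h1 ?_
      have h2 : ((Nat.card (PSL2 p) : ℕ) : ℝ) ≤ (p : ℝ) ^ 4 := by
        exact_mod_cast Z10b_card (p := p)
      refine h2.trans (pow_le_pow_left₀ (Nat.cast_nonneg _) ?_ 4)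
      have h3 : (p : ℝ) ≤ p0 := by exact_mod_cast hlt.le
      linarith
    constructor
    · have e : {S : Fin k → PSL2 p | Subgroup.closure (Set.range S) = ⊤ ∧
          ¬ IsExpander (min ε₁ (1 / ((p0 : ℝ) + 1) ^ 4)) (Set.range S)} = ∅ := by
        rw [Set.eq_empty_iff_forall_notMem]
        exact fun S hS => hS.2 (hne S hS.1)
      rw [e, Set.ncard_empty, Nat.cast_zero]
      positivity
    · refine ⟨∅, ?_, fun S h1 h2 => absurd (hne S h1) h2⟩
      rw [Finset.card_empty, Nat.cast_zero]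
      positivity
  · obtain ⟨h1, T, hT, hrep⟩ := hp0 p hfact hge
    have key : ∀ S : Fin k → PSL2 p,
        ¬ IsExpander (min ε₁ (1 / ((p0 : ℝ) + 1) ^ 4)) (Set.range S) →
        ¬ IsExpander ε₁ (Set.range S) := fun S h h' => h (h'.mono (min_le_left _ _))
    constructor
    · refine le_trans ?_ h1
      have h2 : {S : Fin k → PSL2 p | Subgroup.closure (Set.range S) = ⊤ ∧
          ¬ IsExpander (min ε₁ (1 / ((p0 : ℝ) + 1) ^ 4)) (Set.range S)}.ncard ≤
          {S : Fin k → PSL2 p | Subgroup.closure (Set.range S) = ⊤ ∧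
          ¬ IsExpander ε₁ (Set.range S)}.ncard :=
        Set.ncard_le_ncard (fun S hS => ⟨hS.1, key S hS.2⟩) (Set.toFinite _)
      exact_mod_cast h2
    · exact ⟨T, hT, fun S h2 h3 => hrep S h2 (key S h3)⟩

end Pool.Agent.Lib.MP_3bb35d_al.UE
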