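import Pool.Agent.Lib.MP_3bb35d_al.Mg.G028
import Pool.Agent.Lib.MP_3bb35d_al.Mg.G015

/-!
# The trace criterion for expansion of `PSL₂(p)`
-/

set_option autoImplicit false

namespace Pool.Agent.Lib.MP_3bb35d_al.UE

private theorem Z11b_card {p : ℕ} [Fact p.Prime] : Nat.card (PSL2 p) ≤ p ^ 4 := by
  have h1 : Nat.card (PSL2 p) ≤ Nat.card (SL2 p) :=
    Nat.card_le_card_of_surjective _ (QuotientGroup.mk'_surjective (Subgroup.center (SL2 p)))
  have h2 : Nat.card (SL2 p) ≤ Nat.card (Matrix (Fin 2) (Fin 2) (ZMod p)) :=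
    Nat.card_le_card_of_injective (fun m : SL2 p => (m : Matrix (Fin 2) (Fin 2) (ZMod p)))
      Subtype.val_injective
  have h3 : Nat.card (Matrix (Fin 2) (Fin 2) (ZMod p)) = p ^ 4 := by
    have : Nat.card (Matrix (Fin 2) (Fin 2) (ZMod p)) = Nat.card (Fin 2 → Fin 2 → ZMod p) := rfl
    rw [this, Nat.card_fun, Nat.card_fun, Nat.card_zmod, Nat.card_fin, ← pow_mul]
  omega

private theorem Z11b_ker {p : ℕ} [Fact p.Prime] : Nat.card (toPSL p).ker ≤ 2 := by
  have h1 : (toPSL p).ker = Subgroup.center (SL2 p) := QuotientGroup.ker_mk' _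
  rw [h1, Nat.card_congr
    (Matrix.SpecialLinearGroup.center_equiv_rootsOfUnity (n := Fin 2) (R := ZMod p)).toEquiv]
  have h2 : max (Fintype.card (Fin 2)) 1 = 2 := by simp
  rw [h2]
  exact card_rootsOfUnity (ZMod p) 2

/-- PROOF. `good_pair` with `δ / 2`: `ε₀`, `p0`. Let `p1 ≥ max p0 7` be such that `p ^ (δ / 2) + 3 ≤ p ^ δ` for `p ≥ p1` (e.g. `p ^ (δ / 2) ≥ 4`). `c = min (ε₀ / 30) (1 / (p1 + 1) ^ 4)`. For `p ≥ p1`: `B` from `good_pair`, `T` = the finite set `{P 0 | P ∈ B} ∪ {0, 2, -2}`. Let `toPSL p g ∈ Wrd S N`, `tr g ∉ T`. `lift_word`: `g = ±1` has trace `±2 ∈ T`, so `g ∈ Wrd (preimage) N`.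
`closure_preimage`, `trace_sl2`: the preimage is an `ε₀ / (N + 14)`-expander, `IsExpander.of_preimage` (`toPSL` is surjective, its kernel has at most two elements): `S` is an `ε₀ / (2 (N + 14))`-expander and `2 (N + 14) ≤ 30 N`; `IsExpander.mono`. For `p < p1`: `T = ∅`, `expander_small`, `|PSL₂(p)| ≤ |SL₂(p)| ≤ p ^ 4 ≤ (p1 + 1) ^ 4`, `c / N ≤ c`. -/
theorem trace_criterion (δ : ℝ) (hδ : 0 < δ) : ∃ c : ℝ, 0 < c ∧ ∀ p : ℕ, p.Prime →
    ∃ T : Finset (ZMod p), (T.card : ℝ) ≤ (p : ℝ) ^ δ ∧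
      ∀ S : Set (PSL2 p), Subgroup.closure S = ⊤ → ∀ N : ℕ, 1 ≤ N →
        (∃ g : SL2 p, toPSL p g ∈ Wrd S N ∧ tr g ∉ T) → IsExpander (c / N) S := by
  classical
  obtain ⟨ε₀, hε₀, p0, hgood⟩ := good_pair (δ / 2) (by positivity)
  have hlim : ∀ᶠ p : ℕ in Filter.atTop, (4 : ℝ) ≤ (p : ℝ) ^ (δ / 2) :=
    ((tendsto_rpow_atTop (by positivity : 0 < δ / 2)).comp
      tendsto_natCast_atTop_atTop).eventually_ge_atTop 4
  obtain ⟨p2, hp2⟩ := Filter.eventually_atTop.1 hlim
  set p1 : ℕ := max p0 (max p2 7) with hp1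
  have hc1 : 0 < 1 / ((p1 : ℝ) + 1) ^ 4 := by positivity
  refine ⟨min (ε₀ / 30) (1 / ((p1 : ℝ) + 1) ^ 4), lt_min (by positivity) hc1, fun p hp => ?_⟩
  have hfact : Fact p.Prime := ⟨hp⟩
  rcases lt_or_ge p p1 with hlt | hge
  · refine ⟨∅, by rw [Finset.card_empty, Nat.cast_zero]; positivity, ?_⟩
    intro S hS N hN _
    have hN' : (1 : ℝ) ≤ N := by exact_mod_cast hN
    refine (expander_small S hS).mono ?_
    have h0 : (0 : ℝ) ≤ min (ε₀ / 30) (1 / ((p1 : ℝ) + 1) ^ 4) :=
      (lt_min (by positivity) hc1).le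
    refine (div_le_self h0 hN').trans ((min_le_right _ _).trans ?_)
    have h1 : (0 : ℝ) < Nat.card (PSL2 p) := by exact_mod_cast Nat.card_pos
    refine one_div_le_one_div_of_le h1 ?_
    have h2 : ((Nat.card (PSL2 p) : ℕ) : ℝ) ≤ (p : ℝ) ^ 4 := by
      exact_mod_cast Z11b_card (p := p)
    refine h2.trans (pow_le_pow_left₀ (Nat.cast_nonneg _) ?_ 4)
    have h3 : (p : ℝ) ≤ p1 := by exact_mod_cast hlt.le
    linarith
  · have hle0 : p0 ≤ p := (le_max_left _ _).trans hge
    have hle2 : p2 ≤ p := ((le_max_left _ _).trans (le_max_right _ _)).trans hge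
    have hle7 : 7 ≤ p := ((le_max_right _ _).trans (le_max_right _ _)).trans hge
    obtain ⟨B, hB1, hB2⟩ := hgood p hfact hle0
    have hpos : (0 : ℝ) < p := by exact_mod_cast hp.pos
    have hfin : B.Finite := Set.toFinite B
    refine ⟨(hfin.toFinset.image fun P : Fin 3 → ZMod p => P 0) ∪ {0, 2, -2}, ?_, ?_⟩
    · have h1 : ((hfin.toFinset.image fun P : Fin 3 → ZMod p => P 0) ∪ {0, 2, -2}).card ≤
          B.ncard + 3 := by
        refine (Finset.card_union_le _ _).trans (add_le_add ?_ Finset.card_le_three)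
        refine Finset.card_image_le.trans ?_
        rw [Set.ncard_eq_toFinset_card _ hfin]
      have h2 : (((hfin.toFinset.image fun P : Fin 3 → ZMod p => P 0) ∪ {0, 2, -2}).card : ℝ) ≤
          B.ncard + 3 := by exact_mod_cast h1
      refine h2.trans ?_
      have h4 : (p : ℝ) ^ δ = (p : ℝ) ^ (δ / 2) * (p : ℝ) ^ (δ / 2) := by
        rw [← Real.rpow_add hpos]
        congr 1
        ring
      have h5 := hp2 p hle2
      rw [h4]
      nlinarith
    · rintro S hS N hN ⟨g, hg, hT⟩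
      have hN' : (1 : ℝ) ≤ N := by exact_mod_cast hN
      have hT1 : tr g ∉ ((fun P : Fin 3 → ZMod p => P 0) '' B ∪ {0, 2, -2} : Set (ZMod p)) := by
        intro h
        apply hT
        rw [Finset.mem_union]
        rcases h with h | h
        · left
          obtain ⟨P, hP, hP2⟩ := h
          exact Finset.mem_image.mpr ⟨P, hfin.mem_toFinset.mpr hP, hP2⟩
        · right
          simpa using h
      rcases lift_word S N g hg with h | h | h
      · exfalso
        apply hT1
        right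
        rw [h]
        have : tr (1 : SL2 p) = 2 := by
          simp only [tr, Matrix.SpecialLinearGroup.coe_one, Matrix.one_apply_eq]
          norm_num
        rw [this]
        simp
      · exfalso
        apply hT1
        right
        rw [h]
        have : tr (-1 : SL2 p) = -2 := by
          simp only [tr, Matrix.SpecialLinearGroup.coe_neg, Matrix.SpecialLinearGroup.coe_one,
            Matrix.neg_apply, Matrix.one_apply_eq]
          norm_num
        rw [this]
        simp
      · have h1 := trace_sl2 hle7 hB2 (toPSL p ⁻¹' S) (closure_preimage S hS) N h hT1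
        have h2 := IsExpander.of_preimage (toPSL p) (QuotientGroup.mk'_surjective _) Z11b_ker
          (by positivity) h1
        refine h2.mono ?_
        have h3 : min (ε₀ / 30) (1 / ((p1 : ℝ) + 1) ^ 4) / N ≤ ε₀ / 30 / N :=
          div_le_div_of_nonneg_right (min_le_left _ _) (by linarith)
        refine h3.trans ?_
        rw [div_div, div_div]
        refine div_le_div_of_nonneg_left hε₀.le ?_ ?_
        · push_cast
          positivity
        · push_cast
          linarith

end Pool.Agent.Lib.MP_3bb35d_al.UE
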