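import Pool.Agent.Lib.MP_3bb35d_al.Mg.G016

/-!
# The number of bad points is at most `p ^ δ`
-/

set_option autoImplicit false

namespace Pool.Agent.Lib.MP_3bb35d_al.UE

private theorem Z2_ev (m : ℕ) {s : ℝ} (hs : 0 < s) :
    ∀ᶠ x : ℝ in Filter.atTop, Real.log x ^ m ≤ x ^ s := by
  have h := (isLittleO_log_rpow_rpow_atTop (m : ℝ) hs).bound one_pos
  filter_upwards [h, Filter.eventually_gt_atTop 0] with x hx hx0
  rw [one_mul, Real.rpow_natCast, Real.norm_of_nonneg (Real.rpow_nonneg hx0.le s)] at hx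
  exact (le_abs_self _).trans hx

/-- PROOF. `κ = min (1 / 2160) (δ / 432)`, `η = p ^ (-8 κ)`, `η ^ 27 = p ^ (-216 κ)`, `216 κ ≤ 1/10` and `216 κ ≤ δ / 2`. `L = log p`, `L ≤ n ≤ 2 L`. `3/4 ≤ exp (-1/4)`, so `(3/4) ^ n ≤ p ^ (-1/4)`. For `p ≥ p0`: `(860160 * 2 L + 2) ^ 40 * 8000000 * 4 L² * p ^ (-1/4) ≤ p ^ (-1/10) / 2 ≤ η ^ 27 / 2` (powers of `log p` are `o(p ^ c)`: Mathlib `isLittleO_pow_log_id_atTop`,
`Real.isLittleO_log_id_atTop`, `isLittleO_log_rpow_atTop`), so `card_Bad` gives `#Bad * η ^ 27 / 2 ≤ (1720320 L + 2) ^ 40`, `#Bad ≤ 2 (1720320 L + 2) ^ 40 p ^ (δ / 2) ≤ p ^ δ` for `p ≥ p0`. -/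
theorem Bad_le (δ : ℝ) (hδ : 0 < δ) : ∃ κ : ℝ, 0 < κ ∧ κ ≤ 1 / 4 ∧ ∃ p0 : ℕ, ∀ p : ℕ,
    ∀ _ : Fact p.Prime, p0 ≤ p → ∀ n : ℕ, Real.log p ≤ n → (n : ℝ) ≤ 2 * Real.log p →
      ((BadPt p n ((p : ℝ) ^ (-(8 * κ)))).ncard : ℝ) ≤ (p : ℝ) ^ δ := by
  obtain ⟨κ, hκ⟩ : ∃ κ : ℝ, κ = min (1 / 2160) (δ / 432) := ⟨_, rfl⟩
  have hκ0 : 0 < κ := by
    rw [hκ]
    exact lt_min (by norm_num) (by positivity)
  have hκ1 : κ ≤ 1 / 2160 := by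
    rw [hκ]
    exact min_le_left _ _
  have hκ2 : κ ≤ δ / 432 := by
    rw [hκ]
    exact min_le_right _ _
  have hev : ∀ᶠ p : ℕ in Filter.atTop, (2000000 : ℝ) ≤ Real.log p ∧
      Real.log p ^ 90 ≤ (p : ℝ) ^ (3 / 20 : ℝ) ∧ Real.log p ^ 81 ≤ (p : ℝ) ^ (δ / 2) := by
    have h1 : ∀ᶠ x : ℝ in Filter.atTop, (2000000 : ℝ) ≤ Real.log x ∧
        Real.log x ^ 90 ≤ x ^ (3 / 20 : ℝ) ∧ Real.log x ^ 81 ≤ x ^ (δ / 2) := by
      filter_upwards [Real.tendsto_log_atTop.eventually_ge_atTop 2000000,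
        Z2_ev 90 (by norm_num : (0 : ℝ) < 3 / 20), Z2_ev 81 (half_pos hδ)] with x h1 h2 h3
      exact ⟨h1, h2, h3⟩
    exact tendsto_natCast_atTop_atTop.eventually h1
  obtain ⟨p0, hp0⟩ := Filter.eventually_atTop.1 hev
  refine ⟨κ, hκ0, hκ1.trans (by norm_num), p0, fun p hp hpp n hn1 hn2 => ?_⟩
  obtain ⟨hL, hA, hB⟩ := hp0 p hpp
  have hp1 : (1 : ℝ) ≤ p := by exact_mod_cast hp.out.one_lt.le
  have hp0' : (0 : ℝ) < p := by linarith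
  obtain ⟨L, hLdef⟩ : ∃ L, L = Real.log p := ⟨_, rfl⟩
  rw [← hLdef] at hL hA hB hn1 hn2
  have hL0 : 0 < L := by linarith
  have hn : 1 ≤ n := by
    rcases Nat.eq_zero_or_pos n with h | h
    · rw [h, Nat.cast_zero] at hn1
      linarith
    · exact h
  have hη0 : 0 ≤ (p : ℝ) ^ (-(8 * κ)) := Real.rpow_nonneg hp0'.le _
  have hη1 : (p : ℝ) ^ (-(8 * κ)) ≤ 1 :=
    Real.rpow_le_one_of_one_le_of_nonpos hp1 (by linarith)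
  have key := card_Bad p n hn hη0 hη1
  obtain ⟨N, hN⟩ : ∃ N : ℝ, N = ((BadPt p n ((p : ℝ) ^ (-(8 * κ)))).ncard : ℝ) := ⟨_, rfl⟩
  have hN0 : 0 ≤ N := by
    rw [hN]
    exact Nat.cast_nonneg _
  rw [← hN] at key ⊢
  have hη27 : ((p : ℝ) ^ (-(8 * κ))) ^ 27 = (p : ℝ) ^ (-(216 * κ)) := by
    rw [← Real.rpow_mul_natCast hp0'.le]
    congr 1
    push_cast
    ring
  rw [hη27] at key
  -- the polynomial factor
  have hQ : ((860160 * (n : ℝ) + 2) ^ 40 : ℝ) ≤ L ^ 80 := by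
    have h1 : 860160 * (n : ℝ) + 2 ≤ L ^ 2 := by nlinarith
    calc ((860160 * (n : ℝ) + 2) ^ 40 : ℝ) ≤ (L ^ 2) ^ 40 :=
          pow_le_pow_left₀ (by positivity) h1 40
      _ = L ^ 80 := by rw [← pow_mul]
  have h34 : ((3 / 4 : ℝ)) ^ n ≤ (p : ℝ) ^ (-(1 / 4) : ℝ) := by
    have h1 : (3 / 4 : ℝ) ≤ Real.exp (-(1 / 4)) := by
      have := Real.add_one_le_exp (-(1 / 4) : ℝ)
      linarith
    calc ((3 / 4 : ℝ)) ^ n ≤ (Real.exp (-(1 / 4))) ^ n := pow_le_pow_left₀ (by norm_num) h1 n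
      _ = Real.exp (n * (-(1 / 4))) := (Real.exp_nat_mul _ n).symm
      _ ≤ Real.exp (L * (-(1 / 4))) := Real.exp_le_exp.2 (by linarith)
      _ = (p : ℝ) ^ (-(1 / 4) : ℝ) := by
          rw [Real.rpow_def_of_pos hp0', ← hLdef]
  have hθ : 8000000 * (n : ℝ) ^ 2 * (3 / 4) ^ n ≤ 32000000 * L ^ 2 * (p : ℝ) ^ (-(1 / 4) : ℝ) := by
    have h1 : (n : ℝ) ^ 2 ≤ (2 * L) ^ 2 := pow_le_pow_left₀ (Nat.cast_nonneg _) hn2 2
    calc 8000000 * (n : ℝ) ^ 2 * (3 / 4) ^ n ≤ 8000000 * (2 * L) ^ 2 * (p : ℝ) ^ (-(1 / 4) : ℝ) :=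
          mul_le_mul (mul_le_mul_of_nonneg_left h1 (by norm_num)) h34 (by positivity)
            (by positivity)
      _ = _ := by ring
  have hθ0 : 0 ≤ 8000000 * (n : ℝ) ^ 2 * (3 / 4) ^ n := by positivity
  have hprod : L ^ 80 * (8000000 * (n : ℝ) ^ 2 * (3 / 4) ^ n) ≤ (p : ℝ) ^ (-(216 * κ)) / 2 := by
    have h1 : 64000000 * L ^ 82 ≤ L ^ 90 := by
      have h2 : (64000000 : ℝ) ≤ L ^ 8 := by
        calc (64000000 : ℝ) ≤ 2000000 ^ 8 := by norm_num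
          _ ≤ L ^ 8 := pow_le_pow_left₀ (by norm_num) hL 8
      calc 64000000 * L ^ 82 ≤ L ^ 8 * L ^ 82 :=
            mul_le_mul_of_nonneg_right h2 (by positivity)
        _ = L ^ 90 := by rw [← pow_add]
    have h3 : (p : ℝ) ^ (3 / 20 : ℝ) * (p : ℝ) ^ (-(1 / 4) : ℝ) = (p : ℝ) ^ (-(1 / 10) : ℝ) := by
      rw [← Real.rpow_add hp0']
      norm_num
    have h4 : (p : ℝ) ^ (-(1 / 10) : ℝ) ≤ (p : ℝ) ^ (-(216 * κ)) :=
      Real.rpow_le_rpow_of_exponent_le hp1 (by linarith)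
    have h5 : 0 ≤ (p : ℝ) ^ (-(1 / 4) : ℝ) := Real.rpow_nonneg hp0'.le _
    calc L ^ 80 * (8000000 * (n : ℝ) ^ 2 * (3 / 4) ^ n) ≤
          L ^ 80 * (32000000 * L ^ 2 * (p : ℝ) ^ (-(1 / 4) : ℝ)) :=
          mul_le_mul_of_nonneg_left hθ (by positivity)
      _ = (64000000 * L ^ 82) * (p : ℝ) ^ (-(1 / 4) : ℝ) / 2 := by ring
      _ ≤ (p : ℝ) ^ (3 / 20 : ℝ) * (p : ℝ) ^ (-(1 / 4) : ℝ) / 2 := by
          refine div_le_div_of_nonneg_right ?_ (by norm_num)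
          exact mul_le_mul_of_nonneg_right (h1.trans hA) h5
      _ ≤ (p : ℝ) ^ (-(216 * κ)) / 2 := by
          rw [h3]
          linarith
  have hmain : N * (p : ℝ) ^ (-(216 * κ)) ≤ 2 * L ^ 80 := by
    have h1 : (860160 * (n : ℝ) + 2) ^ 40 * (1 + N * (8000000 * (n : ℝ) ^ 2 * (3 / 4) ^ n)) ≤
        L ^ 80 * (1 + N * (8000000 * (n : ℝ) ^ 2 * (3 / 4) ^ n)) :=
      mul_le_mul_of_nonneg_right hQ (by positivity)
    have h2 : N * (L ^ 80 * (8000000 * (n : ℝ) ^ 2 * (3 / 4) ^ n)) ≤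
        N * ((p : ℝ) ^ (-(216 * κ)) / 2) := mul_le_mul_of_nonneg_left hprod hN0
    have h3 := key.trans h1
    have h4 : L ^ 80 * (1 + N * (8000000 * (n : ℝ) ^ 2 * (3 / 4) ^ n)) =
        L ^ 80 + N * (L ^ 80 * (8000000 * (n : ℝ) ^ 2 * (3 / 4) ^ n)) := by ring
    rw [h4] at h3
    linarith
  have h5 : (p : ℝ) ^ (-(216 * κ)) * (p : ℝ) ^ (216 * κ) = 1 := by
    rw [← Real.rpow_add hp0', neg_add_cancel, Real.rpow_zero]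
  have h6 : (p : ℝ) ^ (216 * κ) ≤ (p : ℝ) ^ (δ / 2) :=
    Real.rpow_le_rpow_of_exponent_le hp1 (by linarith)
  have h7 : 0 ≤ (p : ℝ) ^ (216 * κ) := Real.rpow_nonneg hp0'.le _
  have h8 : 2 * L ^ 80 ≤ L ^ 81 := by
    calc 2 * L ^ 80 ≤ L * L ^ 80 := mul_le_mul_of_nonneg_right (by linarith) (by positivity)
      _ = L ^ 81 := by rw [← pow_succ']
  calc N = (N * (p : ℝ) ^ (-(216 * κ))) * (p : ℝ) ^ (216 * κ) := by rw [mul_assoc, h5, mul_one]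
    _ ≤ (2 * L ^ 80) * (p : ℝ) ^ (216 * κ) := mul_le_mul_of_nonneg_right hmain h7
    _ ≤ (p : ℝ) ^ (δ / 2) * (p : ℝ) ^ (δ / 2) :=
        mul_le_mul (h8.trans hB) h6 h7 (Real.rpow_nonneg hp0'.le _)
    _ = (p : ℝ) ^ δ := by rw [← Real.rpow_add hp0', add_halves]

end Pool.Agent.Lib.MP_3bb35d_al.UE
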